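import Mathlib
import Pool.Agent.U839.Ch.Chain

set_option autoImplicit false

/-! # The probability of a given number of elements -/

open MeasureTheory ProbabilityTheory Filter Finset Topology

namespace Pool.Agent.U839.Er

open Pool.Agent.U839.Thin (one_sub_ge)
open Pool.Agent.U839.Lp (flip_indep split_prod)

/-- elementary symmetric polynomials -/
noncomputable def es (ρ : ℕ → ℝ) (s : Finset ℕ) (j : ℕ) : ℝ := ∑ J ∈ powersetCard j s, ∏ m ∈ J, ρ m

theorem es_nonneg (ρ : ℕ → ℝ) (s : Finset ℕ) (hρ : ∀ m ∈ s, 0 ≤ ρ m) (j : ℕ) : 0 ≤ es ρ s j := by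
  unfold es
  apply sum_nonneg
  intro J hJ
  apply prod_nonneg
  intro m hm
  exact hρ m ((mem_powersetCard.1 hJ).1 hm)

theorem es_zero (ρ : ℕ → ℝ) (s : Finset ℕ) : es ρ s 0 = 1 := by
  unfold es
  simp

theorem es_succ (ρ : ℕ → ℝ) (s : Finset ℕ) (j : ℕ) :
    ((j : ℝ) + 1) * es ρ s (j + 1) = ∑ J ∈ powersetCard j s, (∏ m ∈ J, ρ m) * ∑ m ∈ s \ J, ρ m := by
  classical
  have h1 : ((j : ℝ) + 1) * es ρ s (j + 1) =
      ∑ x ∈ (powersetCard (j + 1) s).sigma (fun J => J), ∏ m ∈ x.1, ρ m := by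
    rw [sum_sigma]
    unfold es
    rw [mul_sum]
    apply sum_congr rfl
    intro J hJ
    simp only
    rw [sum_const, (mem_powersetCard.1 hJ).2, nsmul_eq_mul]
    push_cast
    ring
  have h2 : ∑ J ∈ powersetCard j s, (∏ m ∈ J, ρ m) * ∑ m ∈ s \ J, ρ m =
      ∑ x ∈ (powersetCard j s).sigma (fun J => s \ J), (∏ m ∈ x.1, ρ m) * ρ x.2 := by
    rw [sum_sigma]
    apply sum_congr rfl
    intro J _
    rw [mul_sum]
  rw [h1, h2]
  apply sum_bij' (fun x _ => (⟨x.1.erase x.2, x.2⟩ : Σ _ : Finset ℕ, ℕ))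
    (fun x _ => (⟨insert x.2 x.1, x.2⟩ : Σ _ : Finset ℕ, ℕ))
  · rintro ⟨J, m⟩ hx
    rw [mem_sigma, mem_powersetCard] at hx
    obtain ⟨⟨h3, h4⟩, h5⟩ := hx
    simp only at h3 h4 h5
    rw [mem_sigma, mem_powersetCard]
    refine ⟨⟨(erase_subset _ _).trans h3, ?_⟩, ?_⟩
    · rw [card_erase_of_mem h5, h4]
      rfl
    · simp only
      rw [Finset.mem_sdiff]
      exact ⟨h3 h5, notMem_erase _ _⟩
  · rintro ⟨J, m⟩ hx
    rw [mem_sigma, mem_powersetCard] at hx
    obtain ⟨⟨h3, h4⟩, h5⟩ := hx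
    simp only at h3 h4 h5
    rw [Finset.mem_sdiff] at h5
    rw [mem_sigma, mem_powersetCard]
    refine ⟨⟨insert_subset h5.1 h3, ?_⟩, mem_insert_self _ _⟩
    simp only
    rw [card_insert_of_notMem h5.2, h4]
  · rintro ⟨J, m⟩ hx
    rw [mem_sigma] at hx
    simp only at hx ⊢
    rw [insert_erase hx.2]
  · rintro ⟨J, m⟩ hx
    rw [mem_sigma, Finset.mem_sdiff] at hx
    simp only at hx ⊢
    rw [erase_insert hx.2.2]
  · rintro ⟨J, m⟩ hx
    rw [mem_sigma] at hx
    simp only at hx ⊢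
    rw [prod_erase_mul _ _ hx.2]

theorem es_low (ρ : ℕ → ℝ) (s : Finset ℕ) (hρ : ∀ m ∈ s, 0 ≤ ρ m) (M : ℝ) (hM : ∀ m ∈ s, ρ m ≤ M) (hM0 : 0 ≤ M)
    (j : ℕ) (b : ℝ) (hb : 0 ≤ b) (hbj : b + j * M ≤ ∑ m ∈ s, ρ m) :
    b ^ j ≤ (j.factorial : ℝ) * es ρ s j := by
  have key : ∀ i ≤ j, b ^ i ≤ (i.factorial : ℝ) * es ρ s i := by
    intro i
    induction i with
    | zero =>
      intro _
      rw [es_zero]
      simp
    | succ i ih =>
      intro hi
      have h1 := ih (by omega)
      have h2 : b * es ρ s i ≤ ((i : ℝ) + 1) * es ρ s (i + 1) := by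
        rw [es_succ]
        unfold es
        rw [mul_sum]
        apply sum_le_sum
        intro J hJ
        obtain ⟨h3, h4⟩ := mem_powersetCard.1 hJ
        rw [mul_comm]
        apply mul_le_mul_of_nonneg_left _ (prod_nonneg (fun m hm => hρ m (h3 hm)))
        have h5 := sum_sdiff (f := ρ) h3
        have h6 : ∑ m ∈ J, ρ m ≤ i * M := by
          calc ∑ m ∈ J, ρ m ≤ ∑ m ∈ J, M := sum_le_sum (fun m hm => hM m (h3 hm))
            _ = i * M := by rw [sum_const, h4, nsmul_eq_mul]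
        have h7 : (i : ℝ) * M ≤ j * M := by
          apply mul_le_mul_of_nonneg_right _ hM0
          exact_mod_cast (by omega : i ≤ j)
        linarith
      have h3 : (((i + 1).factorial : ℕ) : ℝ) = ((i : ℝ) + 1) * (i.factorial : ℝ) := by
        rw [Nat.factorial_succ]
        push_cast
        ring
      rw [pow_succ, h3]
      calc b ^ i * b ≤ ((i.factorial : ℝ) * es ρ s i) * b := by gcongr
        _ = (i.factorial : ℝ) * (b * es ρ s i) := by ring
        _ ≤ (i.factorial : ℝ) * (((i : ℝ) + 1) * es ρ s (i + 1)) := by gcongr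
        _ = _ := by ring
  exact key j le_rfl

theorem log_fact (j : ℕ) (hj : 1 ≤ j) : Real.log (j.factorial : ℝ) ≤ 1 + Real.log j + j * Real.log j - j := by
  induction j, hj using Nat.le_induction with
  | base => simp
  | succ j hj ih =>
    have hj0 : (0 : ℝ) < j := by exact_mod_cast hj
    have h3 : (((j + 1).factorial : ℕ) : ℝ) = ((j : ℝ) + 1) * (j.factorial : ℝ) := by
      rw [Nat.factorial_succ]
      push_cast
      ring
    have hf : (j.factorial : ℝ) ≠ 0 := by exact_mod_cast Nat.factorial_ne_zero j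
    rw [h3, Real.log_mul (by positivity) hf]
    push_cast
    have h4 : 1 ≤ ((j : ℝ) + 1) * (Real.log ((j : ℝ) + 1) - Real.log j) := by
      rw [← Real.log_div (by positivity) hj0.ne']
      have h5 := Real.one_sub_inv_le_log_of_pos (show 0 < ((j : ℝ) + 1) / j by positivity)
      have h6 : 1 - (((j : ℝ) + 1) / j)⁻¹ = 1 / ((j : ℝ) + 1) := by
        field_simp
        ring
      rw [h6, div_le_iff₀ (by positivity)] at h5
      linarith
    nlinarith

variable {Ω : Type*} [MeasurableSpace Ω] {μ : Measure Ω} [IsProbabilityMeasure μ]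

/-- exactly the elements of `J` occur -/
def AJ (E : ℕ → Set Ω) (s J : Finset ℕ) : Set Ω := ⋂ m ∈ s, (if m ∈ J then E m else (E m)ᶜ)

/-- exactly `j` elements occur -/
def DD (E : ℕ → Set Ω) (s : Finset ℕ) (j : ℕ) : Set Ω := ⋃ J ∈ powersetCard j s, AJ E s J

omit [MeasurableSpace Ω] in
theorem AJ_mem (E : ℕ → Set Ω) (s J : Finset ℕ) (ω : Ω) (h : ω ∈ AJ E s J) (m : ℕ) (hm : m ∈ s) :
    ω ∈ E m ↔ m ∈ J := by
  unfold AJ at h
  simp only [Set.mem_iInter] at h
  have h1 := h m hm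
  by_cases h2 : m ∈ J
  · rw [if_pos h2] at h1
    exact ⟨fun _ => h2, fun _ => h1⟩
  · rw [if_neg h2] at h1
    exact ⟨fun h => absurd h h1, fun h => absurd h h2⟩

open Classical in
omit [MeasurableSpace Ω] in
theorem DD_card (E : ℕ → Set Ω) (s : Finset ℕ) (j : ℕ) (ω : Ω) (h : ω ∈ DD E s j) :
    (s.filter (fun m => ω ∈ E m)).card = j := by
  unfold DD at h
  simp only [Set.mem_iUnion] at h
  obtain ⟨J, hJ, hω⟩ := h
  obtain ⟨h1, h2⟩ := mem_powersetCard.1 hJ
  rw [← h2]
  congr 1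
  ext m
  rw [mem_filter]
  constructor
  · rintro ⟨h3, h4⟩
    exact (AJ_mem E s J ω hω m h3).1 h4
  · intro h3
    exact ⟨h1 h3, (AJ_mem E s J ω hω m (h1 h3)).2 h3⟩

omit [MeasurableSpace Ω] in
theorem DD_meas (E : ℕ → Set Ω) (s : Finset ℕ) (j : ℕ) :
    MeasurableSet[⨆ p ∈ (s : Set ℕ), MeasurableSpace.generateFrom {E p}] (DD E s j) := by
  unfold DD AJ
  apply Finset.measurableSet_biUnion
  intro J _
  apply Finset.measurableSet_biInter
  intro m hm
  have h1 : MeasurableSet[⨆ p ∈ (s : Set ℕ), MeasurableSpace.generateFrom {E p}] (E m) :=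
    (le_iSup₂ (f := fun p (_ : p ∈ (s : Set ℕ)) => MeasurableSpace.generateFrom {E p}) m
      (by exact_mod_cast hm)) _ (MeasurableSpace.measurableSet_generateFrom (Set.mem_singleton _))
  split_ifs
  · exact h1
  · exact h1.compl

omit [IsProbabilityMeasure μ] in
theorem DD_meas' (E : ℕ → Set Ω) (hm : ∀ n, MeasurableSet (E n)) (s : Finset ℕ) (j : ℕ) :
    MeasurableSet (DD E s j) := by
  unfold DD AJ
  apply Finset.measurableSet_biUnion
  intro J _
  apply Finset.measurableSet_biInter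
  intro m _
  split_ifs
  · exact hm m
  · exact (hm m).compl

theorem DD_low {E : ℕ → Set Ω} (hm : ∀ n, MeasurableSet (E n)) (hE : iIndepSet E μ) (s : Finset ℕ) (j : ℕ)
    (η : ℝ) (hη0 : 0 ≤ η) (hη1 : η ≤ 1) (hρ : ∀ m ∈ s, 2 * μ.real (E m) ≤ η) :
    Real.exp (-((1 + η) * ∑ m ∈ s, μ.real (E m))) * es (fun m => μ.real (E m)) s j ≤ μ.real (DD E s j) := by
  classical
  have hJm : ∀ J, MeasurableSet (AJ E s J) := by
    intro J
    unfold AJ
    apply Finset.measurableSet_biInter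
    intro m _
    split_ifs
    · exact hm m
    · exact (hm m).compl
  have hJp : ∀ J ∈ powersetCard j s, μ.real (AJ E s J) =
      (∏ m ∈ J, μ.real (E m)) * ∏ m ∈ s \ J, (1 - μ.real (E m)) := by
    intro J hJ
    obtain ⟨h1, h2⟩ := mem_powersetCard.1 hJ
    rw [← split_prod s J h1]
    have h3 := (flip_indep J hE).meas_biInter s
    unfold AJ
    simp only [measureReal_def]
    rw [h3, ENNReal.toReal_prod]
    apply prod_congr rfl
    intro m _
    by_cases h4 : m ∈ J
    · rw [if_pos h4, if_pos h4]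
    · rw [if_neg h4, if_neg h4]
      exact probReal_compl_eq_one_sub (hm m)
  have h1 : μ.real (DD E s j) = ∑ J ∈ powersetCard j s, μ.real (AJ E s J) := by
    unfold DD
    apply measureReal_biUnion_finset
    · intro J hJ J' hJ' hne
      change Disjoint (AJ E s J) (AJ E s J')
      rw [Set.disjoint_left]
      intro ω h2 h3
      apply hne
      have hJ1 := (mem_powersetCard.1 (Finset.mem_coe.1 hJ)).1
      have hJ2 := (mem_powersetCard.1 (Finset.mem_coe.1 hJ')).1
      ext m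
      constructor
      · intro h4
        exact (AJ_mem E s J' ω h3 m (hJ1 h4)).1 ((AJ_mem E s J ω h2 m (hJ1 h4)).2 h4)
      · intro h4
        exact (AJ_mem E s J ω h2 m (hJ2 h4)).1 ((AJ_mem E s J' ω h3 m (hJ2 h4)).2 h4)
    · intro J _
      exact hJm J
    · intro J _
      exact measure_ne_top _ _
  rw [h1, sum_congr rfl hJp]
  unfold es
  rw [mul_sum]
  apply sum_le_sum
  intro J hJ
  obtain ⟨h2, h3⟩ := mem_powersetCard.1 hJ
  rw [mul_comm]
  apply mul_le_mul_of_nonneg_left _ (prod_nonneg (fun m _ => measureReal_nonneg))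
  have hfac : ∀ m ∈ s \ J, Real.exp (-((1 + η) * μ.real (E m))) ≤ 1 - μ.real (E m) := by
    intro m hmm
    have h4 := hρ m (Finset.mem_sdiff.1 hmm).1
    have h5 : 0 ≤ μ.real (E m) := measureReal_nonneg
    refine le_trans ?_ (one_sub_ge _ h5 (by linarith))
    apply Real.exp_le_exp.2
    rw [neg_le_neg_iff]
    nlinarith
  refine le_trans ?_ (Finset.prod_le_prod (fun m _ => (Real.exp_pos _).le) hfac)
  rw [← Real.exp_sum, Finset.sum_neg_distrib, ← Finset.mul_sum]
  apply Real.exp_le_exp.2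
  have h5 : ∑ m ∈ s \ J, μ.real (E m) ≤ ∑ m ∈ s, μ.real (E m) :=
    sum_le_sum_of_subset_of_nonneg sdiff_subset (fun m _ _ => measureReal_nonneg)
  have h6 : 0 ≤ 1 + η := by linarith
  nlinarith

/-- independence of events of disjoint groups -/
theorem group_meas {E : ℕ → Set Ω} (hm : ∀ n, MeasurableSet (E n)) (hE : iIndepSet E μ)
    (U : ℕ → Finset ℕ) (hU : ∀ a b, a ≠ b → Disjoint (U a) (U b)) (D : ℕ → Set Ω)
    (hD : ∀ a, MeasurableSet[⨆ p ∈ (U a : Set ℕ), MeasurableSpace.generateFrom {E p}] (D a)) :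
    iIndepSet D μ := by
  classical
  have hle : ∀ p, MeasurableSpace.generateFrom {E p} ≤ (inferInstance : MeasurableSpace Ω) := by
    intro p
    apply MeasurableSpace.generateFrom_le
    intro t ht
    rw [Set.mem_singleton_iff.1 ht]
    exact hm p
  have hD' : ∀ a, MeasurableSet (D a) := fun a => (iSup₂_le (fun p _ => hle p)) _ (hD a)
  rw [iIndepSet_iff_meas_biInter hD']
  intro s
  induction s using Finset.induction_on with
  | empty => simp
  | insert a s has ih =>
    rw [Finset.prod_insert has, Finset.set_biInter_insert]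
    have hind := indep_iSup_of_disjoint hle hE
      (S := ((U a : Finset ℕ) : Set ℕ)) (T := ((s.biUnion U : Finset ℕ) : Set ℕ)) (by
        rw [Finset.disjoint_coe, Finset.disjoint_biUnion_right]
        intro i hi
        apply hU
        rintro rfl
        exact has hi)
    have h2 : MeasurableSet[⨆ p ∈ ((s.biUnion U : Finset ℕ) : Set ℕ), MeasurableSpace.generateFrom {E p}]
        (⋂ i ∈ s, D i) := by
      apply Finset.measurableSet_biInter s
      intro i hi
      refine (iSup₂_mono' ?_ : (⨆ p ∈ ((U i : Finset ℕ) : Set ℕ), MeasurableSpace.generateFrom {E p}) ≤ _) _ (hD i)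
      intro p hp
      refine ⟨p, ?_, le_rfl⟩
      rw [Finset.mem_coe, Finset.mem_biUnion]
      exact ⟨i, hi, by exact_mod_cast hp⟩
    have h4 := (Indep_iff _ _ μ).1 hind _ _ (hD a) h2
    rw [h4, ih]

end Pool.Agent.U839.Er
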