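import Mathlib
import Pool.Agent.U839.Er.Prob

set_option autoImplicit false

/-! # Many windows with a given number of elements -/

open MeasureTheory ProbabilityTheory Filter Finset Topology

namespace Pool.Agent.U839.Er

open Pool.Agent.U839.Sv (wn log_sq_small)
open Pool.Agent.U839.Thin (residue tlog)
open Pool.Agent.U839.Gb (SS SS_mgf SS_int SS_eq SS_meas chern_low)
open Pool.Agent.U839.Lp (bc)
open Pool.Agent.U839.Ch (exp_small)

variable {Ω : Type*} [MeasurableSpace Ω] {μ : Measure Ω} [IsProbabilityMeasure μ]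

theorem wn_le (c : ℝ) (hc : 0 ≤ c) {m n : ℕ} (hm : 1 ≤ m) (h : m ≤ n) : wn c m ≤ wn c n := by
  unfold wn
  apply Nat.floor_le_floor
  have h1 : Real.log m ≤ Real.log n := Real.log_le_log (by exact_mod_cast hm) (by exact_mod_cast h)
  have h2 : 0 ≤ Real.log m := Real.log_natCast_nonneg m
  gcongr

open Classical in
theorem cnt {E : ℕ → Set Ω} (hm : ∀ n, MeasurableSet (E n)) (hE : iIndepSet E μ) (c : ℝ) (hc : 0 < c)
    (j : ℕ → ℕ) (a η : ℝ) (ha0 : 0 ≤ a) (hη : 0 < η) (ha : a + 5 * η ≤ 1)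
    (hp : ∀ᶠ n : ℕ in atTop, (n : ℝ) ^ (-a) ≤ μ.real (DD E (Ioc n (n + wn c n)) (j n))) :
    ∀ᵐ ω ∂μ, ∀ᶠ x : ℕ in atTop, (x : ℝ) ^ (1 - a - 4 * η) ≤
      (((Ioc x (2 * x)).filter (fun n => ((Ioc n (n + wn c n)).filter (fun m => ω ∈ E m)).card = j n)).card : ℝ) := by
  obtain ⟨n₁, hn₁⟩ := eventually_atTop.1 hp
  have h2x : Tendsto (fun x : ℕ => 2 * x) atTop atTop := tendsto_id.const_mul_atTop' (by norm_num)
  have e5 : ∀ᶠ x : ℕ in atTop, (4 : ℝ) ≤ (x : ℝ) ^ (η / 2) :=
    ((tendsto_rpow_atTop (half_pos hη)).comp tendsto_natCast_atTop_atTop).eventually_ge_atTop _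
  have key : ∀ᶠ x : ℕ in atTop, ∃ bad : Set Ω, μ.real bad ≤ 1 * (1 / (x : ℝ) ^ (2 : ℝ)) ∧
      ∀ ω, ω ∉ bad → (x : ℝ) ^ (1 - a - 4 * η) ≤
      (((Ioc x (2 * x)).filter (fun n => ((Ioc n (n + wn c n)).filter (fun m => ω ∈ E m)).card = j n)).card : ℝ) := by
    filter_upwards [h2x.eventually (log_sq_small c (η / 2) hc (by positivity)), eventually_ge_atTop (max n₁ 1),
      exp_small η hη, e5] with x g2 g3 g4 g5
    have hx1n : 1 ≤ x := (le_max_right _ _).trans g3
    have hx1 : (1 : ℝ) ≤ x := by exact_mod_cast hx1n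
    have hx0 : (0 : ℝ) < x := by linarith
    obtain ⟨Y, hY⟩ : ∃ Y, Y = wn c (2 * x) := ⟨_, rfl⟩
    obtain ⟨r, hr⟩ := residue (Ioc x (2 * x)) (Y + 1) (Nat.succ_pos _)
    obtain ⟨S', hS'⟩ : ∃ S', S' = (Ioc x (2 * x)).filter (fun n => n % (Y + 1) = r) := ⟨_, rfl⟩
    rw [← hS'] at hr
    have hsub : ∀ i ∈ S', x < i ∧ i ≤ 2 * x := by
      intro i hi
      rw [hS', Finset.mem_filter, mem_Ioc] at hi
      exact hi.1
    have hw : ∀ i ∈ S', wn c i ≤ Y := by
      intro i hi
      obtain ⟨h1, h2⟩ := hsub i hi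
      rw [hY]
      exact wn_le c hc.le (by omega) h2
    have hdis : ∀ i ∈ S', ∀ j ∈ S', i ≠ j → Disjoint (Ioc i (i + wn c i)) (Ioc j (j + wn c j)) := by
      intro i hi j hj hij
      have hwi := hw i hi
      have hwj := hw j hj
      rw [hS', Finset.mem_filter] at hi hj
      rw [Finset.disjoint_left]
      intro m hmi hmj
      rw [Finset.mem_Ioc] at hmi hmj
      have h5 : i ≡ j [MOD (Y + 1)] := by
        unfold Nat.ModEq
        rw [hi.2, hj.2]
      rcases Nat.lt_or_gt_of_ne hij with h6 | h6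
      · have h7 := (Nat.modEq_iff_dvd' h6.le).1 h5
        have h8 := Nat.le_of_dvd (by omega) h7
        omega
      · have h7 := (Nat.modEq_iff_dvd' h6.le).1 h5.symm
        have h8 := Nat.le_of_dvd (by omega) h7
        omega
    obtain ⟨U, hU⟩ : ∃ U : ℕ → Finset ℕ, U = fun i => if i ∈ S' then Ioc i (i + wn c i) else ∅ := ⟨_, rfl⟩
    have hUd : ∀ a b, a ≠ b → Disjoint (U a) (U b) := by
      intro a b hab
      rw [hU]
      simp only
      split_ifs with h1 h2
      · exact hdis a h1 b h2 hab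
      · exact disjoint_empty_right _
      · exact disjoint_empty_left _
      · exact disjoint_empty_left _
    obtain ⟨D, hD⟩ : ∃ D : ℕ → Set Ω, D = fun a => DD E (U a) (j a) := ⟨_, rfl⟩
    have hDi : iIndepSet D μ := by
      rw [hD]
      exact group_meas hm hE U hUd _ (fun a => DD_meas E (U a) (j a))
    have hDm : ∀ n, MeasurableSet (D n) := by
      intro n
      rw [hD]
      exact DD_meas' E hm (U n) (j n)
    have hDe : ∀ i ∈ S', D i = DD E (Ioc i (i + wn c i)) (j i) := by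
      intro i hi
      rw [hD, hU]
      simp only
      rw [if_pos hi]
    have hprob : ∀ i ∈ S', 1 / 4 * (x : ℝ) ^ (-a) ≤ μ.real (D i) := by
      intro i hi
      obtain ⟨h1, h2⟩ := hsub i hi
      rw [hDe i hi]
      refine le_trans ?_ (hn₁ i ((le_max_left _ _).trans (g3.trans h1.le)))
      have hi0 : (0 : ℝ) < i := by exact_mod_cast (by omega : 0 < i)
      have h3 : (i : ℝ) ≤ 2 * x := by exact_mod_cast h2
      have h4 : (2 * (x : ℝ)) ^ (-a) ≤ (i : ℝ) ^ (-a) := Real.rpow_le_rpow_of_nonpos hi0 h3 (by linarith)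
      refine le_trans ?_ h4
      rw [Real.mul_rpow (by norm_num) hx0.le]
      apply mul_le_mul_of_nonneg_right _ (by positivity)
      calc (1 : ℝ) / 4 = 2 ^ (-2 : ℝ) := by
            rw [Real.rpow_neg (by norm_num)]
            norm_num
        _ ≤ 2 ^ (-a) := Real.rpow_le_rpow_of_exponent_le (by norm_num) (by linarith)
    have hcard : (x : ℝ) ^ (1 - η / 2) * (1 / 4) ≤ S'.card := by
      have h1 : ((Ioc x (2 * x)).card : ℝ) ≤ ((Y : ℝ) + 1) * S'.card := by exact_mod_cast hr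
      rw [Nat.card_Ioc] at h1
      have h0 : ((2 * x - x : ℕ) : ℝ) = x := by
        have : 2 * x - x = x := by omega
        rw [this]
      rw [h0] at h1
      have h2 : (Y : ℝ) + 1 ≤ 4 * (x : ℝ) ^ (η / 2) := by
        have h3 : (Y : ℝ) ≤ c * (Real.log ((2 * x : ℕ) : ℝ)) ^ 2 := by
          rw [hY]
          exact Nat.floor_le (by positivity)
        have h4 : (((2 * x : ℕ) : ℝ)) ^ (η / 2) ≤ 4 * (x : ℝ) ^ (η / 2) := by
          push_cast
          rw [Real.mul_rpow (by norm_num) hx0.le]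
          apply mul_le_mul_of_nonneg_right _ (by positivity)
          calc (2 : ℝ) ^ (η / 2) ≤ 2 ^ (2 : ℝ) := Real.rpow_le_rpow_of_exponent_le (by norm_num) (by linarith)
            _ = 4 := by norm_num
        linarith
      have h3 : (x : ℝ) = (x : ℝ) ^ (η / 2) * (x : ℝ) ^ (1 - η / 2) := by
        rw [← Real.rpow_add hx0, show η / 2 + (1 - η / 2) = 1 by ring, Real.rpow_one]
      have h4 : 0 < (x : ℝ) ^ (η / 2) := Real.rpow_pos_of_pos hx0 _
      have h5 : (x : ℝ) ^ (η / 2) * ((x : ℝ) ^ (1 - η / 2) * (1 / 4)) ≤ (x : ℝ) ^ (η / 2) * S'.card := by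
        have h6 : (x : ℝ) ≤ 4 * (x : ℝ) ^ (η / 2) * S'.card :=
          h1.trans (mul_le_mul_of_nonneg_right h2 (Nat.cast_nonneg _))
        have h7 : (x : ℝ) ^ (η / 2) * ((x : ℝ) ^ (1 - η / 2) * (1 / 4)) =
            ((x : ℝ) ^ (η / 2) * (x : ℝ) ^ (1 - η / 2)) / 4 := by ring
        rw [h7, ← h3]
        linarith
      exact le_of_mul_le_mul_left h5 h4
    have hM : (x : ℝ) ^ (1 - a - 2 * η) ≤ ∑ a ∈ S', μ.real (D a) := by
      have h16 : (16 : ℝ) ≤ (x : ℝ) ^ η := by
        have : (x : ℝ) ^ η = (x : ℝ) ^ (η / 2) * (x : ℝ) ^ (η / 2) := by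
          rw [← Real.rpow_add hx0]
          congr 1
          ring
        rw [this]
        nlinarith
      calc (x : ℝ) ^ (1 - a - 2 * η) = (x : ℝ) ^ (1 - a - 2 * η) * 16 * (1 / 16) := by ring
        _ ≤ (x : ℝ) ^ (1 - a - 2 * η) * (x : ℝ) ^ η * (1 / 16) := by gcongr
        _ = (x : ℝ) ^ (1 - a - η) * (1 / 16) := by
            rw [← Real.rpow_add hx0]
            congr 2
            ring
        _ ≤ (x : ℝ) ^ (1 - η / 2 - a) * (1 / 16) := by
            apply mul_le_mul_of_nonneg_right _ (by norm_num)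
            apply Real.rpow_le_rpow_of_exponent_le hx1
            linarith
        _ = ((x : ℝ) ^ (1 - η / 2) * (1 / 4)) * (1 / 4 * (x : ℝ) ^ (-a)) := by
            have : (x : ℝ) ^ (1 - η / 2 - a) = (x : ℝ) ^ (1 - η / 2) * (x : ℝ) ^ (-a) := by
              rw [← Real.rpow_add hx0]
              congr 1
            rw [this]
            ring
        _ ≤ S'.card * (1 / 4 * (x : ℝ) ^ (-a)) := by gcongr
        _ = ∑ i ∈ S', 1 / 4 * (x : ℝ) ^ (-a) := by rw [sum_const, nsmul_eq_mul]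
        _ ≤ _ := sum_le_sum hprob
    refine ⟨{ω | SS D S' ω ≤ (1 - 1 / 2) * ∑ a ∈ S', μ.real (D a)}, ?_, ?_⟩
    · refine (chern_low D hDm hDi S' (1 / 2) (by norm_num) (by norm_num)).trans (le_trans ?_ g4)
      apply Real.exp_le_exp.2
      have h1 : (x : ℝ) ^ η ≤ (x : ℝ) ^ (1 - a - 2 * η) :=
        Real.rpow_le_rpow_of_exponent_le hx1 (by linarith)
      linarith
    · intro ω hω
      rw [Set.mem_ofPred_eq, SS_eq, not_le] at hω
      have h1 : (x : ℝ) ^ (1 - a - 4 * η) ≤ (1 - 1 / 2) * ∑ a ∈ S', μ.real (D a) := by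
        have h2 : (x : ℝ) ^ (1 - a - 4 * η) * (x : ℝ) ^ (2 * η) = (x : ℝ) ^ (1 - a - 2 * η) := by
          rw [← Real.rpow_add hx0]
          congr 1
          ring
        have h3 : (2 : ℝ) ≤ (x : ℝ) ^ (2 * η) := by
          have h4 : (x : ℝ) ^ (η / 2) ≤ (x : ℝ) ^ (2 * η) := Real.rpow_le_rpow_of_exponent_le hx1 (by linarith)
          linarith
        have h4 : 0 ≤ (x : ℝ) ^ (1 - a - 4 * η) := Real.rpow_nonneg hx0.le _
        nlinarith
      refine h1.trans (hω.le.trans ?_)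
      have h2 : S'.filter (fun a => ω ∈ D a) ⊆ (Ioc x (2 * x)).filter (fun n =>
          ((Ioc n (n + wn c n)).filter (fun m => ω ∈ E m)).card = j n) := by
        intro n hn
        obtain ⟨hn1, hn2⟩ := mem_filter.1 hn
        rw [mem_filter]
        refine ⟨mem_Ioc.2 (hsub n hn1), ?_⟩
        rw [hDe n hn1] at hn2
        exact DD_card E _ (j n) ω hn2
      have h3 := card_le_card h2
      have h4 : ((S'.filter (fun a => ω ∈ D a)).card : ℝ) ≤ (((Ioc x (2 * x)).filter (fun n =>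
          ((Ioc n (n + wn c n)).filter (fun m => ω ∈ E m)).card = j n)).card : ℝ) := by exact_mod_cast h3
      refine le_trans (le_of_eq ?_) h4
      congr
  obtain ⟨x₀, hx₀⟩ := eventually_atTop.1 key
  choose! bad hbad using hx₀
  have hb := bc (μ := μ) bad 1 2 (by norm_num) (by
    filter_upwards [eventually_ge_atTop x₀] with x hx
    exact (hbad x hx).1)
  filter_upwards [hb] with ω hω
  filter_upwards [hω, eventually_ge_atTop x₀] with x h1 h2
  exact (hbad x h2).2 ω h1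

end Pool.Agent.U839.Er
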