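import Mathlib
import Pool.Agent.U839.Er.Cnt

set_option autoImplicit false

/-! # The rate function -/

open MeasureTheory ProbabilityTheory Filter Finset Topology

namespace Pool.Agent.U839.Er

open Pool.Agent.U839.Sv (wn log_sq_small fT fT_nonneg regular Sieved law' rho_small inf sub_pow)
open Pool.Agent.U839.Thin (tlog)
open Pool.Agent.U839.Gb (SS SS_mgf SS_int SS_eq SS_meas)
open Pool.Agent.U839.Ch (sum_up)

/-- the rate function of the Poisson law -/
noncomputable def rate (c α : ℝ) : ℝ := c - α + α * Real.log (α / c)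

theorem rate_zero (c : ℝ) : rate c 0 = c := by
  unfold rate
  simp

theorem rate_self (c : ℝ) (hc : 0 < c) : rate c c = 0 := by
  unfold rate
  rw [div_self hc.ne', Real.log_one]
  ring

theorem rate_eq (c α : ℝ) (hc : 0 < c) : rate c α = c - α + (α * Real.log α - α * Real.log c) := by
  unfold rate
  rcases eq_or_ne α 0 with h | h
  · rw [h]
    simp
  · rw [Real.log_div h hc.ne']
    ring

theorem rate_nonneg (c α : ℝ) (hc : 0 < c) (hα : 0 ≤ α) : 0 ≤ rate c α := by
  rcases hα.eq_or_lt with h | h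
  · rw [← h, rate_zero]
    exact hc.le
  · unfold rate
    have h1 := Real.one_sub_inv_le_log_of_pos (show 0 < α / c by positivity)
    have h2 : α * (1 - (α / c)⁻¹) ≤ α * Real.log (α / c) := by gcongr
    have h3 : α * (1 - (α / c)⁻¹) = α - c := by field_simp
    linarith

theorem rate_conv (c α s : ℝ) (hc : 0 < c) (hα : 0 ≤ α) (hs0 : 0 ≤ s) (hs1 : s ≤ 1) :
    rate c ((1 - s) * α + s * c) ≤ (1 - s) * rate c α := by
  have h1 := Real.convexOn_mul_log.2 (show α ∈ Set.Ici (0 : ℝ) from hα) (show c ∈ Set.Ici (0 : ℝ) from hc.le)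
    (show 0 ≤ 1 - s by linarith) hs0 (by ring)
  simp only [smul_eq_mul] at h1
  rw [rate_eq c _ hc, rate_eq c _ hc]
  nlinarith

/-- lower bound for the probability -/
theorem low_exp (c α η : ℝ) (hc : 0 < c) (hα : 0 ≤ α) (hη : 0 < η) : ∃ ε : ℝ, 0 < ε ∧ ε ≤ 1 ∧
    ∀ᶠ n : ℕ in atTop, ∀ (s : Finset ℕ) (p : ℕ → ℝ), (∀ m ∈ s, 0 ≤ p m ∧ 2 * p m ≤ ε) →
      |∑ m ∈ s, p m - c * Real.log n| ≤ ε * (c * Real.log n) →
      (n : ℝ) ^ (-(rate c α + η)) ≤
        Real.exp (-((1 + ε) * ∑ m ∈ s, p m)) * es p s ⌊α * Real.log n⌋₊ := by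
  obtain ⟨A, hA⟩ : ∃ A, A = 3 * c + 2 * ((c + α) / c) * α := ⟨_, rfl⟩
  obtain ⟨B, hB⟩ : ∃ B, B = (c + α) / c := ⟨_, rfl⟩
  have hB1 : 1 ≤ B := by
    rw [hB, le_div_iff₀ hc]
    linarith
  have hA0 : 0 < A := by
    rw [hA]
    positivity
  obtain ⟨ε, hε⟩ : ∃ ε, ε = min 1 (min (η / (2 * A)) (1 / (2 * B))) := ⟨_, rfl⟩
  have hε0 : 0 < ε := by
    rw [hε]
    exact lt_min one_pos (lt_min (by positivity) (by positivity))
  have hε1 : ε ≤ 1 := by rw [hε]; exact min_le_left _ _
  have hε2 : ε * A ≤ η / 2 := by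
    have h1 : ε ≤ η / (2 * A) := by rw [hε]; exact (min_le_right _ _).trans (min_le_left _ _)
    rw [le_div_iff₀ (by positivity)] at h1
    linarith
  have hε3 : ε * B ≤ 1 / 2 := by
    have h1 : ε ≤ 1 / (2 * B) := by rw [hε]; exact (min_le_right _ _).trans (min_le_right _ _)
    rw [le_div_iff₀ (by positivity)] at h1
    linarith
  refine ⟨ε, hε0, hε1, ?_⟩
  obtain ⟨r, hr⟩ : ∃ r, r = 1 + Real.log (c / α) := ⟨_, rfl⟩
  have e1 : ∀ᶠ L : ℝ in atTop, |r| + 1 + Real.log (α * L) ≤ η / 2 * L := by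
    have h1 := Real.isLittleO_log_id_atTop.bound (show (0 : ℝ) < η / 4 by positivity)
    filter_upwards [h1, eventually_ge_atTop 1, eventually_ge_atTop (4 * (|r| + 1 + |Real.log α|) / η)] with L g1 g2 g3
    rw [id, Real.norm_of_nonneg (Real.log_nonneg g2), Real.norm_of_nonneg (by linarith)] at g1
    rw [div_le_iff₀ hη] at g3
    have h2 : Real.log (α * L) ≤ |Real.log α| + Real.log L := by
      rcases eq_or_ne α 0 with h | h
      · rw [h, zero_mul, Real.log_zero]
        have := Real.log_nonneg g2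
        simp
        exact this
      · rw [Real.log_mul h (by linarith)]
        have := le_abs_self (Real.log α)
        linarith
    linarith
  filter_upwards [tlog.eventually e1, tlog.eventually_ge_atTop 1, tlog.eventually_ge_atTop (1 / α),
    eventually_ge_atTop 2] with n g1 g2 g3 g4 s p hp hS
  have hn0 : (0 : ℝ) < n := by exact_mod_cast (by omega : 0 < n)
  obtain ⟨L, hL⟩ : ∃ L, L = Real.log n := ⟨_, rfl⟩
  obtain ⟨S, hSd⟩ : ∃ S, S = ∑ m ∈ s, p m := ⟨_, rfl⟩
  rw [← hL] at g1 g2 g3 hS ⊢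
  rw [← hSd] at hS ⊢
  have hL0 : 0 < L := by linarith
  have hS1 := (abs_le.1 hS).1
  have hS2 := (abs_le.1 hS).2
  have hexpS : (1 + ε) * S ≤ c * L + 3 * ε * c * L := by
    have h1 : (1 + ε) * S ≤ (1 + ε) * ((1 + ε) * (c * L)) := by
      apply mul_le_mul_of_nonneg_left _ (by linarith)
      linarith
    have h2 : ε ^ 2 * (c * L) ≤ ε * (c * L) := by
      apply mul_le_mul_of_nonneg_right _ (by positivity)
      nlinarith
    nlinarith
  rw [Real.rpow_def_of_pos hn0, ← hL]
  rcases hα.eq_or_lt with h0 | h0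
  · rw [← h0, zero_mul, Nat.floor_zero, es_zero, mul_one, rate_zero]
    apply Real.exp_le_exp.2
    have h1 : ε * (3 * c) ≤ η / 2 := by
      refine le_trans ?_ hε2
      apply mul_le_mul_of_nonneg_left _ hε0.le
      rw [hA]
      have : 0 ≤ 2 * ((c + α) / c) * α := by positivity
      linarith
    have h2 : ε * (3 * c) * L ≤ η / 2 * L := by gcongr
    nlinarith
  · obtain ⟨j, hj⟩ : ∃ j, j = ⌊α * L⌋₊ := ⟨_, rfl⟩
    rw [← hj]
    have hj1 : (j : ℝ) ≤ α * L := by
      rw [hj]
      exact Nat.floor_le (by positivity)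
    have hj2 : α * L - 1 ≤ j := by
      rw [hj]
      exact (Nat.sub_one_lt_floor _).le
    have hj3 : 1 ≤ j := by
      rw [hj]
      apply Nat.le_floor
      rw [div_le_iff₀ h0] at g3
      push_cast
      linarith
    have hj0 : (0 : ℝ) < j := by exact_mod_cast hj3
    obtain ⟨κ, hκ⟩ : ∃ κ, κ = ε * B := ⟨_, rfl⟩
    rw [← hκ] at hε3
    have hκ0 : 0 < κ := by rw [hκ]; positivity
    have hb := es_low p s (fun m hm => (hp m hm).1) (ε / 2) (fun m hm => by
      have := (hp m hm).2
      linarith) (by positivity) j ((1 - κ) * c * L) (by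
        apply mul_nonneg (mul_nonneg (by linarith) hc.le) hL0.le) (by
        rw [← hSd]
        have h1 : (j : ℝ) * (ε / 2) ≤ α * L * (ε / 2) := by gcongr
        have h2 : κ * c = ε * (c + α) := by
          rw [hκ, hB]
          field_simp
        have h3 : κ * c * L = ε * (c + α) * L := by rw [h2]
        have h4 : 0 ≤ ε * α * L := by positivity
        nlinarith)
    have hb0 : 0 < (1 - κ) * c * L := mul_pos (mul_pos (by linarith) hc) hL0
    have hf0 : (0 : ℝ) < j.factorial := by exact_mod_cast Nat.factorial_pos j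
    have h1 : Real.exp (j * Real.log ((1 - κ) * c * L) - Real.log j.factorial) ≤ es p s j := by
      rw [Real.exp_sub, Real.exp_log hf0, div_le_iff₀ hf0]
      refine le_trans (le_of_eq ?_) (hb.trans (le_of_eq (mul_comm _ _)))
      rw [mul_comm, Real.exp_mul, Real.exp_log hb0, Real.rpow_natCast]
    have h2 : Real.exp (-((1 + ε) * S)) * Real.exp (j * Real.log ((1 - κ) * c * L) - Real.log j.factorial) ≤
        Real.exp (-((1 + ε) * S)) * es p s j := by gcongr
    refine le_trans ?_ h2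
    rw [← Real.exp_add]
    apply Real.exp_le_exp.2
    have h3 := log_fact j hj3
    have h4 : Real.log ((1 - κ) * c * L) = Real.log (1 - κ) + Real.log (c / α) + Real.log (α * L) := by
      rw [← Real.log_mul (by linarith) (by positivity), ← Real.log_mul (mul_pos (by linarith) (by positivity)).ne'
        (by positivity)]
      congr 1
      field_simp
    have h5 : -(2 * κ) ≤ Real.log (1 - κ) := by
      have h6 := Real.one_sub_inv_le_log_of_pos (show 0 < 1 - κ by linarith)
      have h7 : 1 - (1 - κ)⁻¹ = -(κ / (1 - κ)) := by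
        have : (1 - κ) ≠ 0 := by linarith
        field_simp
        ring
      rw [h7] at h6
      have h8 : κ / (1 - κ) ≤ 2 * κ := by
        rw [div_le_iff₀ (by linarith)]
        nlinarith
      linarith
    have h6 : Real.log j ≤ Real.log (α * L) := Real.log_le_log hj0 hj1
    -- the sum
    have h7 : j * Real.log ((1 - κ) * c * L) - Real.log j.factorial ≥
        j * (r - 2 * κ) - 1 - Real.log (α * L) := by
      rw [h4]
      have k1 : (j : ℝ) * (-(2 * κ)) ≤ j * Real.log (1 - κ) := by gcongr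
      have k2 : (j : ℝ) * Real.log j ≤ j * Real.log (α * L) := by gcongr
      rw [hr]
      nlinarith
    have h8 : j * r ≥ α * L * r - |r| := by
      have k1 : |(j : ℝ) - α * L| ≤ 1 := by
        rw [abs_le]
        constructor <;> linarith
      have k2 : |((j : ℝ) - α * L) * r| ≤ 1 * |r| := by
        rw [abs_mul]
        gcongr
      have k3 := (abs_le.1 k2).1
      nlinarith
    have h9 : (j : ℝ) * (2 * κ) ≤ α * L * (2 * κ) := by gcongr
    have h10 : rate c α = c - α * r := by
      unfold rate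
      rw [hr, Real.log_div hc.ne' h0.ne', Real.log_div h0.ne' hc.ne']
      ring
    have h11 : 3 * ε * c + α * (2 * κ) ≤ η / 2 := by
      refine le_trans (le_of_eq ?_) hε2
      rw [hκ, hA, hB]
      ring
    have h12 : (3 * ε * c + α * (2 * κ)) * L ≤ η / 2 * L := by gcongr
    rw [h10]
    nlinarith

variable {Ω : Type*} [MeasurableSpace Ω] {μ : Measure Ω} [IsProbabilityMeasure μ]

/-- upper bound for the probability -/
theorem up_exp (c α η : ℝ) (hc : 0 < c) (hα : 0 ≤ α) (hη : 0 < η) : ∃ δ : ℝ, 0 < δ ∧ ∃ ε : ℝ, 0 < ε ∧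
    ∀ (E : ℕ → Set Ω), (∀ n, MeasurableSet (E n)) → iIndepSet E μ → ∀ (s : Finset ℕ) (L : ℝ), 0 ≤ L →
      |∑ m ∈ s, μ.real (E m) - c * L| ≤ ε * (c * L) →
      μ.real {ω | |SS E s ω - α * L| ≤ δ * L} ≤ Real.exp (-((rate c α - η) * L)) := by
  obtain ⟨t, h, ht⟩ : ∃ t : ℝ, -t * α + c * (Real.exp t - 1) ≤ -rate c α + η / 2 ∧ True := by
    rcases hα.eq_or_lt with h0 | h0
    · refine ⟨Real.log (η / (2 * c)), ?_, trivial⟩
      rw [← h0, rate_zero, Real.exp_log (by positivity)]
      apply le_of_eq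
      field_simp
      ring
    · refine ⟨Real.log (α / c), ?_, trivial⟩
      rw [Real.exp_log (by positivity)]
      unfold rate
      have : c * (α / c - 1) = α - c := by field_simp
      rw [this]
      linarith
  obtain ⟨A, hA⟩ : ∃ A, A = |t| + 1 := ⟨_, rfl⟩
  obtain ⟨B, hB⟩ : ∃ B, B = c * |Real.exp t - 1| + 1 := ⟨_, rfl⟩
  have hA0 : 0 < A := by rw [hA]; positivity
  have hB0 : 0 < B := by rw [hB]; positivity
  refine ⟨η / (4 * A), by positivity, η / (4 * B), by positivity, ?_⟩
  intro E hm hE s L hL hS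
  obtain ⟨S, hSd⟩ : ∃ S, S = ∑ m ∈ s, μ.real (E m) := ⟨_, rfl⟩
  rw [← hSd] at hS
  obtain ⟨δ, hδ⟩ : ∃ δ, δ = η / (4 * A) := ⟨_, rfl⟩
  rw [← hδ]
  have hδ0 : 0 < δ := by rw [hδ]; positivity
  have h1 : S * (Real.exp t - 1) ≤ c * L * (Real.exp t - 1) + η / 4 * L := by
    have k1 : (S - c * L) * (Real.exp t - 1) ≤ |S - c * L| * |Real.exp t - 1| := by
      rw [← abs_mul]
      exact le_abs_self _
    have k2 : |S - c * L| * |Real.exp t - 1| ≤ η / (4 * B) * (c * L) * |Real.exp t - 1| := by gcongr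
    have k3 : η / (4 * B) * (c * L) * |Real.exp t - 1| ≤ η / 4 * L := by
      have k4 : c * |Real.exp t - 1| ≤ B := by rw [hB]; linarith
      calc η / (4 * B) * (c * L) * |Real.exp t - 1| = η / (4 * B) * L * (c * |Real.exp t - 1|) := by ring
        _ ≤ η / (4 * B) * L * B := by gcongr
        _ = η / 4 * L := by field_simp
    nlinarith
  have h2 : |t| * (δ * L) ≤ η / 4 * L := by
    have k4 : |t| ≤ A := by rw [hA]; linarith
    calc |t| * (δ * L) ≤ A * (δ * L) := by gcongr
      _ = η / 4 * L := by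
        rw [hδ]
        field_simp
  have hfin : Real.exp (-t * (α * L) + |t| * (δ * L)) * mgf (SS E s) μ t ≤
      Real.exp (-((rate c α - η) * L)) := by
    refine (mul_le_mul_of_nonneg_left (SS_mgf E hm hE s t) (Real.exp_pos _).le).trans ?_
    rw [← hSd, ← Real.exp_add]
    apply Real.exp_le_exp.2
    have k1 : (-t * α + c * (Real.exp t - 1)) * L ≤ (-rate c α + η / 2) * L := by gcongr
    nlinarith
  rcases le_total 0 t with ht0 | ht0
  · have h3 : {ω | |SS E s ω - α * L| ≤ δ * L} ⊆ {ω | α * L - δ * L ≤ SS E s ω} := by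
      intro ω hω
      have hω' : |SS E s ω - α * L| ≤ δ * L := hω
      have := (abs_le.1 hω').1
      change α * L - δ * L ≤ SS E s ω
      linarith
    refine (measureReal_mono h3).trans ((measure_ge_le_exp_mul_mgf (t := t) _ ht0 (SS_int E hm s _)).trans ?_)
    refine le_trans (le_of_eq ?_) hfin
    congr 2
    rw [abs_of_nonneg ht0]
    ring
  · have h3 : {ω | |SS E s ω - α * L| ≤ δ * L} ⊆ {ω | SS E s ω ≤ α * L + δ * L} := by
      intro ω hω
      have hω' : |SS E s ω - α * L| ≤ δ * L := hω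
      have := (abs_le.1 hω').2
      change SS E s ω ≤ α * L + δ * L
      linarith
    refine (measureReal_mono h3).trans ((measure_le_le_exp_mul_mgf (t := t) _ ht0 (SS_int E hm s _)).trans ?_)
    refine le_trans (le_of_eq ?_) hfin
    congr 2
    rw [abs_of_nonpos ht0]
    ring

end Pool.Agent.U839.Er
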