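import Mathlib
import Pool.Agent.U839.Er.Asy

set_option autoImplicit false

/-! # Numbers of windows with a given density of elements, for a fixed density -/

open MeasureTheory ProbabilityTheory Filter Finset Topology

namespace Pool.Agent.U839.Er

open Pool.Agent.U839.Sv (wn log_sq_small fT fT_nonneg regular Sieved law' rho_small inf sub_pow)
open Pool.Agent.U839.Thin (tlog)
open Pool.Agent.U839.Gb (SS SS_mgf SS_int SS_eq SS_meas)
open Pool.Agent.U839.Ch (sum_up count_up)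
open Pool.Agent.U839.Lp (bc)

variable {Ω : Type*} [MeasurableSpace Ω] {μ : Measure Ω} [IsProbabilityMeasure μ]

open Classical in
/-- the number of elements of the window after `n` -/
noncomputable def cn (Q : Set ℕ) (c : ℝ) (n : ℕ) : ℕ := ((Ioc n (n + wn c n)).filter (fun m => m ∈ Q)).card

theorem SS_cn (E : ℕ → Set Ω) (c : ℝ) (n : ℕ) (ω : Ω) :
    SS E (Ioc n (n + wn c n)) ω = cn {n | ω ∈ E n} c n := by
  classical
  rw [SS_eq]
  unfold cn
  norm_cast

/-- expected numbers -/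
theorem sums (T : ℕ → ℕ) (hT : Monotone T)
    (hTl : ∀ θ : ℝ, 0 < θ → ∀ᶠ n : ℕ in atTop, (T n : ℝ) ≤ (Real.log n) ^ θ) {E : ℕ → Set Ω}
    (hE : Sieved μ E T) (c ε : ℝ) (hc : 0 < c) (hε : 0 < ε) : ∀ᶠ n : ℕ in atTop,
      |∑ m ∈ Ioc n (n + wn c n), μ.real (E m) - c * Real.log n| ≤ ε * (c * Real.log n) := by
  have hTs := sub_pow T 1 (hTl 1 one_pos)
  obtain ⟨θ, hθ, H⟩ := regular ε hε
  filter_upwards [sum_up T hT hTl c ε hc hε, H T hT (hTl θ hθ) c hc, eventually_ge_atTop 2,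
    eventually_forall_ge_atTop.2 (law' hE hTs), tlog.eventually_ge_atTop 1] with n g1 g2 g3 g4 g5
  have hn0 : (0 : ℝ) < n := by exact_mod_cast (by omega : 0 < n)
  have h1 : ∑ a ∈ Ioc n (n + wn c n), μ.real (E a) = ∑ a ∈ Ioc n (n + wn c n), fT T a / Real.log a := by
    apply Finset.sum_congr rfl
    intro a ha
    rw [mem_Ioc] at ha
    exact g4 a ha.1.le
  rw [h1]
  have h2 := (abs_le.1 (g2 n le_rfl (by omega))).2
  have h3 : ∑ a ∈ Ioc n (n + wn c n), fT T a / Real.log a ≤ (1 + ε) * (c * Real.log n) := by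
    have hL : 0 < Real.log n := by linarith
    calc ∑ m ∈ Ioc n (n + wn c n), fT T m / Real.log m ≤
        ∑ m ∈ Ioc n (n + wn c n), fT T m / Real.log n := by
          apply Finset.sum_le_sum
          intro m hm
          rw [Finset.mem_Ioc] at hm
          apply div_le_div_of_nonneg_left (fT_nonneg T m) hL
          exact Real.log_le_log hn0 (by exact_mod_cast hm.1.le)
      _ = (∑ m ∈ Ioc n (n + wn c n), fT T m) / Real.log n := by rw [Finset.sum_div]
      _ ≤ ((1 + ε) * (c * (Real.log n) ^ 2)) / Real.log n := by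
          apply div_le_div_of_nonneg_right _ hL.le
          linarith
      _ = (1 + ε) * (c * Real.log n) := by field_simp
  rw [abs_le]
  constructor <;> linarith

open Classical in
/-- many windows -/
theorem pt_many (T : ℕ → ℕ) (hT : Monotone T)
    (hTl : ∀ θ : ℝ, 0 < θ → ∀ᶠ n : ℕ in atTop, (T n : ℝ) ≤ (Real.log n) ^ θ) {E : ℕ → Set Ω}
    (hE : Sieved μ E T) (c : ℝ) (hc : 0 < c) (α : ℝ) (hα : 0 ≤ α) (hI : rate c α ≤ 1) (ε : ℝ) (hε : 0 < ε) :
    ∀ᵐ ω ∂μ, ∀ᶠ X : ℕ in atTop, (X : ℝ) ^ (1 - rate c α - ε) ≤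
      (((Ioc X (2 * X)).filter (fun n => |(cn {n | ω ∈ E n} c n : ℝ) / Real.log n - α| < ε)).card : ℝ) := by
  have hTs := sub_pow T 1 (hTl 1 one_pos)
  obtain ⟨s, hs⟩ : ∃ s : ℝ, s = min 1 (ε / (4 * (|c - α| + 1))) := ⟨_, rfl⟩
  have hs0 : 0 < s := by rw [hs]; exact lt_min one_pos (by positivity)
  have hs1 : s ≤ 1 := by rw [hs]; exact min_le_left _ _
  have hs2 : s * (|c - α| + 1) ≤ ε / 4 := by
    have h1 : s ≤ ε / (4 * (|c - α| + 1)) := by rw [hs]; exact min_le_right _ _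
    rw [le_div_iff₀ (by positivity)] at h1
    linarith
  have hs3 : s * |c - α| ≤ ε / 4 := by nlinarith [abs_nonneg (c - α)]
  have hs4 : s ≤ ε / 4 := by nlinarith [abs_nonneg (c - α)]
  obtain ⟨β, hβ⟩ : ∃ β, β = (1 - s) * α + s * c := ⟨_, rfl⟩
  have hβ0 : 0 ≤ β := by
    rw [hβ]
    have : 0 ≤ (1 - s) * α := mul_nonneg (by linarith) hα
    positivity
  have hβα : |β - α| ≤ ε / 4 := by
    have h1 : β - α = s * (c - α) := by rw [hβ]; ring
    rw [h1, abs_mul, abs_of_pos hs0]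
    exact hs3
  have hr := rate_conv c α s hc hα hs0.le hs1
  rw [← hβ] at hr
  have hr0 := rate_nonneg c α hc hα
  have hr1 : rate c β ≤ rate c α := by nlinarith
  have hr2 : rate c β ≤ 1 - s := by nlinarith
  have hrβ := rate_nonneg c β hc hβ0
  obtain ⟨ε₁, h1, h2, h3⟩ := low_exp c β (s / 6) hc hβ0 (by positivity)
  have h4 := cnt hE.meas hE.indep c hc (fun n => ⌊β * Real.log n⌋₊) (rate c β + s / 6) (s / 6) (by positivity)
    (by positivity) (by linarith) (by
      filter_upwards [h3, sums T hT hTl hE c ε₁ hc h1, eventually_forall_ge_atTop.2 (law' hE hTs),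
        eventually_forall_ge_atTop.2 (rho_small T hTs ε₁ h1)] with n g1 g2 g3 g4
      have hp : ∀ m ∈ Ioc n (n + wn c n), 0 ≤ μ.real (E m) ∧ 2 * μ.real (E m) ≤ ε₁ := by
        intro m hm
        rw [mem_Ioc] at hm
        rw [g3 m hm.1.le]
        exact g4 m hm.1.le
      exact (g1 _ _ hp g2).trans (DD_low hE.meas hE.indep _ _ ε₁ h1.le h2 (fun m hm => (hp m hm).2)))
  filter_upwards [h4] with ω h4
  filter_upwards [h4, eventually_ge_atTop 2, tlog.eventually_ge_atTop (4 / ε)] with X g1 g2 g3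
  have hX1 : (1 : ℝ) ≤ X := by exact_mod_cast (by omega : 1 ≤ X)
  have hX0 : (0 : ℝ) < X := by linarith
  have h5 : (X : ℝ) ^ (1 - rate c α - ε) ≤ (X : ℝ) ^ (1 - (rate c β + s / 6) - 4 * (s / 6)) :=
    Real.rpow_le_rpow_of_exponent_le hX1 (by linarith)
  refine h5.trans (g1.trans ?_)
  have h6 : (Ioc X (2 * X)).filter (fun n => ((Ioc n (n + wn c n)).filter (fun m => ω ∈ E m)).card =
      ⌊β * Real.log n⌋₊) ⊆ (Ioc X (2 * X)).filter (fun n => |(cn {n | ω ∈ E n} c n : ℝ) / Real.log n - α| < ε) := by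
    intro n hn
    rw [mem_filter] at hn ⊢
    refine ⟨hn.1, ?_⟩
    obtain ⟨hn1, hn2⟩ := hn
    rw [mem_Ioc] at hn1
    have h7 : cn {n | ω ∈ E n} c n = ⌊β * Real.log n⌋₊ := by
      rw [← hn2]
      unfold cn
      congr 1
    have hLn : 4 / ε ≤ Real.log n := g3.trans (Real.log_le_log hX0 (by exact_mod_cast hn1.1.le))
    have hL0 : 0 < Real.log n := lt_of_lt_of_le (by positivity) hLn
    rw [div_le_iff₀ hε] at hLn
    have h8 : (cn {n | ω ∈ E n} c n : ℝ) ≤ β * Real.log n := by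
      rw [h7]
      exact Nat.floor_le (by positivity)
    have h9 : β * Real.log n - 1 ≤ (cn {n | ω ∈ E n} c n : ℝ) := by
      rw [h7]
      exact (Nat.sub_one_lt_floor _).le
    have h10 : |(cn {n | ω ∈ E n} c n : ℝ) / Real.log n - β| ≤ ε / 4 := by
      rw [abs_le]
      constructor
      · have : β - ε / 4 ≤ (cn {n | ω ∈ E n} c n : ℝ) / Real.log n := by
          rw [le_div_iff₀ hL0]
          nlinarith
        linarith
      · have : (cn {n | ω ∈ E n} c n : ℝ) / Real.log n ≤ β + ε / 4 := by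
          rw [div_le_iff₀ hL0]
          nlinarith
        linarith
    calc |(cn {n | ω ∈ E n} c n : ℝ) / Real.log n - α| =
        |((cn {n | ω ∈ E n} c n : ℝ) / Real.log n - β) + (β - α)| := by ring_nf
      _ ≤ ε / 4 + ε / 4 := (abs_add_le _ _).trans (add_le_add h10 hβα)
      _ < ε := by linarith
  exact_mod_cast card_le_card h6

theorem near_B (E : ℕ → Set Ω) (c α δ : ℝ) (n : ℕ) (ω : Ω)
    (h : |(cn {n | ω ∈ E n} c n : ℝ) / Real.log n - α| < δ) :
    |SS E (Ioc n (n + wn c n)) ω - α * Real.log n| ≤ δ * Real.log n := by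
  rw [SS_cn]
  rcases (Real.log_natCast_nonneg n).eq_or_lt with h1 | h1
  · have h2 : cn {n | ω ∈ E n} c n = 0 := by
      unfold cn wn
      rw [← h1]
      simp
    rw [h2, ← h1]
    simp
  · have h2 : (cn {n | ω ∈ E n} c n : ℝ) - α * Real.log n =
        ((cn {n | ω ∈ E n} c n : ℝ) / Real.log n - α) * Real.log n := by
      field_simp
    rw [h2, abs_mul, abs_of_pos h1]
    gcongr

open Classical in
/-- few windows -/
theorem pt_few (T : ℕ → ℕ) (hT : Monotone T)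
    (hTl : ∀ θ : ℝ, 0 < θ → ∀ᶠ n : ℕ in atTop, (T n : ℝ) ≤ (Real.log n) ^ θ) {E : ℕ → Set Ω}
    (hE : Sieved μ E T) (c : ℝ) (hc : 0 < c) (α : ℝ) (hα : 0 ≤ α) (hI : rate c α ≤ 1) (ε : ℝ) (hε : 0 < ε) :
    ∃ δ : ℝ, 0 < δ ∧ ∀ᵐ ω ∂μ, ∀ᶠ X : ℕ in atTop,
      (((range (X + 1)).filter (fun n => |(cn {n | ω ∈ E n} c n : ℝ) / Real.log n - α| < δ)).card : ℝ) ≤
        (X : ℝ) ^ (1 - rate c α + ε) := by
  obtain ⟨δ, hδ, ε₁, hε₁, H⟩ := up_exp (μ := μ) c α (ε / 4) hc hα (by positivity)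
  refine ⟨δ, hδ, ?_⟩
  have h1 := count_up (μ := μ) (fun n => {ω | |SS E (Ioc n (n + wn c n)) ω - α * Real.log n| ≤ δ * Real.log n})
    (fun n => measurableSet_le (((SS_meas E hE.meas _).sub measurable_const).abs) measurable_const) 1
    (rate c α - ε / 4) (1 - rate c α + ε / 2) (by linarith) (by linarith) (by
      filter_upwards [sums T hT hTl hE c ε₁ hc hε₁, eventually_ge_atTop 1] with n g1 g2
      have hn0 : (0 : ℝ) < n := by exact_mod_cast g2
      refine (H E hE.meas hE.indep _ _ (Real.log_natCast_nonneg n) g1).trans (le_of_eq ?_)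
      rw [one_mul, one_div, ← Real.rpow_neg hn0.le, Real.rpow_def_of_pos hn0]
      congr 1
      ring)
  filter_upwards [h1] with ω h1
  obtain ⟨M, hM, h3⟩ := h1
  have e5 : ∀ᶠ x : ℕ in atTop, M ≤ (x : ℝ) ^ (ε / 2) :=
    ((tendsto_rpow_atTop (half_pos hε)).comp tendsto_natCast_atTop_atTop).eventually_ge_atTop _
  filter_upwards [eventually_ge_atTop 1, e5] with X g1 g2
  have hX0 : (0 : ℝ) < X := by exact_mod_cast g1
  have h4 := h3 X g1
  have h5 : (((range (X + 1)).filter (fun n => |(cn {n | ω ∈ E n} c n : ℝ) / Real.log n - α| < δ)).card : ℝ) ≤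
      M * (X : ℝ) ^ (1 - rate c α + ε / 2) := by
    refine le_trans ?_ h4
    have : (range (X + 1)).filter (fun n => |(cn {n | ω ∈ E n} c n : ℝ) / Real.log n - α| < δ) ⊆
        (range (X + 1)).filter (fun n => ω ∈ (fun n =>
          {ω | |SS E (Ioc n (n + wn c n)) ω - α * Real.log n| ≤ δ * Real.log n}) n) := by
      intro n hn
      rw [mem_filter] at hn ⊢
      exact ⟨hn.1, near_B E c α δ n ω hn.2⟩
    exact_mod_cast card_le_card this
  refine h5.trans ?_
  calc M * (X : ℝ) ^ (1 - rate c α + ε / 2) ≤ (X : ℝ) ^ (ε / 2) * (X : ℝ) ^ (1 - rate c α + ε / 2) := by gcongr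
    _ = (X : ℝ) ^ (1 - rate c α + ε) := by
      rw [← Real.rpow_add hX0]
      congr 1
      ring

/-- no windows -/
theorem pt_none (T : ℕ → ℕ) (hT : Monotone T)
    (hTl : ∀ θ : ℝ, 0 < θ → ∀ᶠ n : ℕ in atTop, (T n : ℝ) ≤ (Real.log n) ^ θ) {E : ℕ → Set Ω}
    (hE : Sieved μ E T) (c : ℝ) (hc : 0 < c) (α : ℝ) (hα : 0 ≤ α) (hI : 1 < rate c α) :
    ∃ δ : ℝ, 0 < δ ∧ ∀ᵐ ω ∂μ, ∀ᶠ n : ℕ in atTop, ¬ |(cn {n | ω ∈ E n} c n : ℝ) / Real.log n - α| < δ := by
  obtain ⟨δ, hδ, ε₁, hε₁, H⟩ := up_exp (μ := μ) c α ((rate c α - 1) / 2) hc hα (by linarith)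
  refine ⟨δ, hδ, ?_⟩
  have h1 := bc (μ := μ) (fun n => {ω | |SS E (Ioc n (n + wn c n)) ω - α * Real.log n| ≤ δ * Real.log n})
    1 (rate c α - (rate c α - 1) / 2) (by linarith) (by
      filter_upwards [sums T hT hTl hE c ε₁ hc hε₁, eventually_ge_atTop 1] with n g1 g2
      have hn0 : (0 : ℝ) < n := by exact_mod_cast g2
      refine (H E hE.meas hE.indep _ _ (Real.log_natCast_nonneg n) g1).trans (le_of_eq ?_)
      rw [one_mul, one_div, ← Real.rpow_neg hn0.le, Real.rpow_def_of_pos hn0]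
      congr 1
      ring)
  filter_upwards [h1] with ω h1
  filter_upwards [h1] with n h1 h2
  exact h1 (near_B E c α δ n ω h2)

/-- boundedness -/
theorem pt_bdd (T : ℕ → ℕ) (hT : Monotone T)
    (hTl : ∀ θ : ℝ, 0 < θ → ∀ᶠ n : ℕ in atTop, (T n : ℝ) ≤ (Real.log n) ^ θ) {E : ℕ → Set Ω}
    (hE : Sieved μ E T) (c : ℝ) (hc : 0 < c) :
    ∀ᵐ ω ∂μ, ∀ᶠ n : ℕ in atTop, (cn {n | ω ∈ E n} c n : ℝ) ≤ (4 * c + 2) * Real.log n := by
  have h1 := bc (μ := μ) (fun n => {ω | (4 * c + 2) * Real.log n ≤ SS E (Ioc n (n + wn c n)) ω})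
    1 2 (by norm_num) (by
      filter_upwards [sums T hT hTl hE c 1 hc one_pos, eventually_ge_atTop 1] with n g1 g2
      have hn0 : (0 : ℝ) < n := by exact_mod_cast g2
      refine (measure_ge_le_exp_mul_mgf (t := 1) _ zero_le_one (SS_int E hE.meas _ _)).trans ?_
      refine (mul_le_mul_of_nonneg_left (SS_mgf E hE.meas hE.indep _ _) (Real.exp_pos _).le).trans ?_
      have h2 := (abs_le.1 g1).2
      have h3 := Real.exp_one_lt_d9
      have h4 := Real.exp_one_gt_d9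
      have hL := Real.log_natCast_nonneg n
      have h5 : (∑ m ∈ Ioc n (n + wn c n), μ.real (E m)) * (Real.exp 1 - 1) ≤ (2 * (c * Real.log n)) * 2 := by
        apply mul_le_mul (by linarith) (by linarith) (by linarith) (by positivity)
      rw [← Real.exp_add, one_mul, one_div, ← Real.rpow_neg hn0.le, Real.rpow_def_of_pos hn0]
      apply Real.exp_le_exp.2
      linarith)
  filter_upwards [h1] with ω h1
  filter_upwards [h1] with n h1
  by_contra hcon
  push Not at hcon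
  apply h1
  change (4 * c + 2) * Real.log n ≤ SS E (Ioc n (n + wn c n)) ω
  rw [SS_cn]
  exact hcon.le

end Pool.Agent.U839.Er
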