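import Mathlib
import Pool.Agent.U839.Er.Pt

set_option autoImplicit false

/-! # The law of the numbers of elements of windows -/

open MeasureTheory ProbabilityTheory Filter Finset Topology

namespace Pool.Agent.U839.Er

open Pool.Agent.U839.Sv (wn Sieved inf sub_pow)
open Pool.Agent.U839.Thin (tlog)
open Pool.Agent.U839.Ch (qn qn_mono qn_mem qn_next conv)

variable {Ω : Type*} [MeasurableSpace Ω] {μ : Measure Ω} [IsProbabilityMeasure μ]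

theorem rate_cont (c : ℝ) (hc : 0 < c) : Continuous (rate c) := by
  have h : rate c = fun α => c - α + (α * Real.log α - α * Real.log c) := by
    funext α
    exact rate_eq c α hc
  rw [h]
  exact (continuous_const.sub continuous_id).add (Real.continuous_mul_log.sub (continuous_id.mul continuous_const))

/-- the windows up to `X` with density near `α` -/
def nearc (Q : Set ℕ) (c α δ : ℝ) : Set ℕ := {n | |(cn Q c n : ℝ) / Real.log n - α| < δ}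

/-- lower bounds for all densities -/
theorem many_all (T : ℕ → ℕ) (hT : Monotone T)
    (hTl : ∀ θ : ℝ, 0 < θ → ∀ᶠ n : ℕ in atTop, (T n : ℝ) ≤ (Real.log n) ^ θ) {E : ℕ → Set Ω}
    (hE : Sieved μ E T) (c : ℝ) (hc : 0 < c) : ∀ᵐ ω ∂μ, ∀ α : ℝ, 0 ≤ α → rate c α ≤ 1 → ∀ ε : ℝ, 0 < ε →
      ∀ᶠ X : ℕ in atTop, (X : ℝ) ^ (1 - rate c α - ε) ≤
        ({n | n ∈ nearc {n | ω ∈ E n} c α ε ∧ X < n ∧ n ≤ 2 * X}.ncard : ℝ) := by
  classical
  obtain ⟨t, ht1, ht2, ht3⟩ := (TopologicalSpace.IsSeparable.of_separableSpace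
    {α : ℝ | 0 ≤ α ∧ rate c α ≤ 1}).exists_countable_dense_subset
  have A1 : ∀ᵐ ω ∂μ, ∀ α ∈ t, ∀ N : ℕ, ∀ᶠ X : ℕ in atTop, (X : ℝ) ^ (1 - rate c α - 1 / ((N : ℝ) + 1)) ≤
      (((Ioc X (2 * X)).filter (fun n => |(cn {n | ω ∈ E n} c n : ℝ) / Real.log n - α| < 1 / ((N : ℝ) + 1))).card : ℝ) :=
    (ae_ball_iff ht2).2 (fun α hα => ae_all_iff.2 (fun N =>
      pt_many T hT hTl hE c hc α (ht1 hα).1 (ht1 hα).2 (1 / ((N : ℝ) + 1)) (by positivity)))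
  filter_upwards [A1] with ω A1 α hα hI ε hε
  have hnb : {β : ℝ | |β - α| < ε / 2 ∧ rate c β < rate c α + ε / 2} ∈ 𝓝 α := by
    apply Filter.inter_mem
    · have : Metric.ball α (ε / 2) ∈ 𝓝 α := Metric.ball_mem_nhds α (by positivity)
      exact this
    · exact (rate_cont c hc).continuousAt.eventually (gt_mem_nhds (by linarith))
  obtain ⟨β, ⟨hβ1, hβ2⟩, hβt⟩ := mem_closure_iff_nhds.1 (ht3 ⟨hα, hI⟩) _ hnb
  obtain ⟨N, hN⟩ := exists_nat_one_div_lt (half_pos hε)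
  filter_upwards [A1 β hβt N, eventually_ge_atTop 1] with X g1 g2
  have hX1 : (1 : ℝ) ≤ X := by exact_mod_cast g2
  refine (Real.rpow_le_rpow_of_exponent_le hX1 (by linarith)).trans (g1.trans ?_)
  have h1 : (((Ioc X (2 * X)).filter (fun n => |(cn {n | ω ∈ E n} c n : ℝ) / Real.log n - β| < 1 / ((N : ℝ) + 1)) :
      Finset ℕ) : Set ℕ).ncard ≤ {n | n ∈ nearc {n | ω ∈ E n} c α ε ∧ X < n ∧ n ≤ 2 * X}.ncard := by
    apply Set.ncard_le_ncard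
    · intro n hn
      rw [Finset.mem_coe, mem_filter, mem_Ioc] at hn
      refine ⟨?_, hn.1⟩
      change |(cn {n | ω ∈ E n} c n : ℝ) / Real.log n - α| < ε
      calc |(cn {n | ω ∈ E n} c n : ℝ) / Real.log n - α| =
          |((cn {n | ω ∈ E n} c n : ℝ) / Real.log n - β) + (β - α)| := by ring_nf
        _ ≤ |(cn {n | ω ∈ E n} c n : ℝ) / Real.log n - β| + |β - α| := abs_add_le _ _
        _ < ε := by linarith [hn.2]
    · apply (Set.finite_Iic (2 * X)).subset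
      rintro n ⟨-, -, hn⟩
      exact hn
  rw [Set.ncard_coe_finset] at h1
  exact_mod_cast h1

/-- upper bounds for all densities -/
theorem few_all (T : ℕ → ℕ) (hT : Monotone T)
    (hTl : ∀ θ : ℝ, 0 < θ → ∀ᶠ n : ℕ in atTop, (T n : ℝ) ≤ (Real.log n) ^ θ) {E : ℕ → Set Ω}
    (hE : Sieved μ E T) (c : ℝ) (hc : 0 < c) : ∀ᵐ ω ∂μ, ∀ α : ℝ, 0 ≤ α → rate c α ≤ 1 → ∀ ε : ℝ, 0 < ε →
      ∃ δ : ℝ, 0 < δ ∧ ∀ᶠ X : ℕ in atTop,
        ({n | n ∈ nearc {n | ω ∈ E n} c α δ ∧ n ≤ X}.ncard : ℝ) ≤ (X : ℝ) ^ (1 - rate c α + ε) := by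
  classical
  have A1 : ∀ᵐ ω ∂μ, ∀ N : ℕ, ∀ α ∈ {α : ℝ | 0 ≤ α ∧ rate c α ≤ 1}, ∃ δ : ℝ, 0 < δ ∧ ∀ᶠ X : ℕ in atTop,
        ({n | n ∈ nearc {n | ω ∈ E n} c α δ ∧ n ≤ X}.ncard : ℝ) ≤
          (X : ℝ) ^ (1 - rate c α + 2 * (1 / ((N : ℝ) + 1))) := by
    rw [ae_all_iff]
    intro N
    obtain ⟨e, he⟩ : ∃ e : ℝ, e = 1 / ((N : ℝ) + 1) := ⟨_, rfl⟩
    have he0 : 0 < e := by rw [he]; positivity
    rw [← he]
    have h1 : ∀ α : ℝ, ∃ δ : ℝ, 0 < δ ∧ (0 ≤ α → rate c α ≤ 1 → ∀ᵐ ω ∂μ, ∀ᶠ X : ℕ in atTop,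
      (((range (X + 1)).filter (fun n => |(cn {n | ω ∈ E n} c n : ℝ) / Real.log n - α| < δ)).card : ℝ) ≤
        (X : ℝ) ^ (1 - rate c α + e)) := by
      intro α
      by_cases h : 0 ≤ α ∧ rate c α ≤ 1
      · obtain ⟨δ, hδ, hh⟩ := pt_few T hT hTl hE c hc α h.1 h.2 e he0
        exact ⟨δ, hδ, fun _ _ => hh⟩
      · exact ⟨1, one_pos, fun h1 h2 => absurd ⟨h1, h2⟩ h⟩
    choose δ hδ h1 using h1
    obtain ⟨t, ht1, ht2, ht3⟩ := TopologicalSpace.countable_cover_nhdsWithin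
      (s := {α : ℝ | 0 ≤ α ∧ rate c α ≤ 1})
      (f := fun α => Metric.ball α (δ α) ∩ {β : ℝ | rate c β < rate c α + e}) (by
        intro α _
        apply mem_nhdsWithin_of_mem_nhds
        apply Filter.inter_mem (Metric.ball_mem_nhds α (hδ α))
        exact (rate_cont c hc).continuousAt.eventually (gt_mem_nhds (by linarith)))
    have A2 := (ae_ball_iff ht2).2 (fun α hα => h1 α (ht1 hα).1 (ht1 hα).2)
    filter_upwards [A2] with ω A2 β hβ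
    have hβ2 := ht3 hβ
    simp only [Set.mem_iUnion] at hβ2
    obtain ⟨α, hαt, hβα, hβr⟩ := hβ2
    have hβr' : rate c β < rate c α + e := hβr
    rw [Metric.mem_ball, Real.dist_eq] at hβα
    refine ⟨δ α - |β - α|, by linarith, ?_⟩
    filter_upwards [A2 α hαt, eventually_ge_atTop 1] with X g1 g2
    have hX1 : (1 : ℝ) ≤ X := by exact_mod_cast g2
    have h2 : {n | n ∈ nearc {n | ω ∈ E n} c β (δ α - |β - α|) ∧ n ≤ X}.ncard ≤
        (((range (X + 1)).filter (fun n => |(cn {n | ω ∈ E n} c n : ℝ) / Real.log n - α| < δ α) :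
          Finset ℕ) : Set ℕ).ncard := by
      apply Set.ncard_le_ncard _ (Finset.finite_toSet _)
      rintro n ⟨hn1, hn2⟩
      have hn1' : |(cn {n | ω ∈ E n} c n : ℝ) / Real.log n - β| < δ α - |β - α| := hn1
      rw [Finset.mem_coe, mem_filter, mem_range]
      refine ⟨by omega, ?_⟩
      calc |(cn {n | ω ∈ E n} c n : ℝ) / Real.log n - α| =
          |((cn {n | ω ∈ E n} c n : ℝ) / Real.log n - β) + (β - α)| := by ring_nf
        _ ≤ |(cn {n | ω ∈ E n} c n : ℝ) / Real.log n - β| + |β - α| := abs_add_le _ _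
        _ < δ α := by linarith
    rw [Set.ncard_coe_finset] at h2
    have h3 : ({n | n ∈ nearc {n | ω ∈ E n} c β (δ α - |β - α|) ∧ n ≤ X}.ncard : ℝ) ≤
      (((range (X + 1)).filter (fun n => |(cn {n | ω ∈ E n} c n : ℝ) / Real.log n - α| < δ α)).card : ℝ) := by
      exact_mod_cast h2
    refine h3.trans (g1.trans (Real.rpow_le_rpow_of_exponent_le hX1 (by linarith)))
  filter_upwards [A1] with ω A1 α hα hI ε hε
  obtain ⟨N, hN⟩ := exists_nat_one_div_lt (half_pos hε)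
  obtain ⟨δ, hδ, h1⟩ := A1 N α ⟨hα, hI⟩
  refine ⟨δ, hδ, ?_⟩
  filter_upwards [h1, eventually_ge_atTop 1] with X g1 g2
  have hX1 : (1 : ℝ) ≤ X := by exact_mod_cast g2
  exact g1.trans (Real.rpow_le_rpow_of_exponent_le hX1 (by linarith))

/-- no other densities -/
theorem none_all (T : ℕ → ℕ) (hT : Monotone T)
    (hTl : ∀ θ : ℝ, 0 < θ → ∀ᶠ n : ℕ in atTop, (T n : ℝ) ≤ (Real.log n) ^ θ) {E : ℕ → Set Ω}
    (hE : Sieved μ E T) (c : ℝ) (hc : 0 < c) : ∀ᵐ ω ∂μ, ∀ α : ℝ, 0 ≤ α → 1 < rate c α →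
      ∃ δ : ℝ, 0 < δ ∧ ∀ᶠ n : ℕ in atTop, ¬ |(cn {n | ω ∈ E n} c n : ℝ) / Real.log n - α| < δ := by
  have h1 : ∀ α : ℝ, ∃ δ : ℝ, 0 < δ ∧ (0 ≤ α → 1 < rate c α → ∀ᵐ ω ∂μ, ∀ᶠ n : ℕ in atTop,
      ¬ |(cn {n | ω ∈ E n} c n : ℝ) / Real.log n - α| < δ) := by
    intro α
    by_cases h : 0 ≤ α ∧ 1 < rate c α
    · obtain ⟨δ, hδ, hh⟩ := pt_none T hT hTl hE c hc α h.1 h.2
      exact ⟨δ, hδ, fun _ _ => hh⟩
    · exact ⟨1, one_pos, fun h1 h2 => absurd ⟨h1, h2⟩ h⟩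
  choose δ hδ h1 using h1
  obtain ⟨t, ht1, ht2, ht3⟩ := TopologicalSpace.countable_cover_nhdsWithin
    (s := {α : ℝ | 0 ≤ α ∧ 1 < rate c α}) (f := fun α => Metric.ball α (δ α)) (by
      intro α _
      exact mem_nhdsWithin_of_mem_nhds (Metric.ball_mem_nhds α (hδ α)))
  have A2 := (ae_ball_iff ht2).2 (fun α hα => h1 α (ht1 hα).1 (ht1 hα).2)
  filter_upwards [A2] with ω A2 β hβ0 hβ1
  have hβ2 := ht3 ⟨hβ0, hβ1⟩
  simp only [Set.mem_iUnion] at hβ2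
  obtain ⟨α, hαt, hβα⟩ := hβ2
  rw [Metric.mem_ball, Real.dist_eq] at hβα
  refine ⟨δ α - |β - α|, by linarith, ?_⟩
  filter_upwards [A2 α hαt] with n g1 g2
  apply g1
  calc |(cn {n | ω ∈ E n} c n : ℝ) / Real.log n - α| =
      |((cn {n | ω ∈ E n} c n : ℝ) / Real.log n - β) + (β - α)| := by ring_nf
    _ ≤ |(cn {n | ω ∈ E n} c n : ℝ) / Real.log n - β| + |β - α| := abs_add_le _ _
    _ < δ α := by linarith

/-- the limit points -/
theorem limits_all (Q : Set ℕ) (c : ℝ)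
    (h1 : ∀ α : ℝ, 0 ≤ α → rate c α ≤ 1 → ∀ ε : ℝ, 0 < ε →
      ∀ᶠ X : ℕ in atTop, (X : ℝ) ^ (1 - rate c α - ε) ≤
        ({n | n ∈ nearc Q c α ε ∧ X < n ∧ n ≤ 2 * X}.ncard : ℝ))
    (h2 : ∀ α : ℝ, 0 ≤ α → 1 < rate c α →
      ∃ δ : ℝ, 0 < δ ∧ ∀ᶠ n : ℕ in atTop, ¬ |(cn Q c n : ℝ) / Real.log n - α| < δ) :
    {α : ℝ | MapClusterPt α atTop (fun n : ℕ => (cn Q c n : ℝ) / Real.log n)} = {α | 0 ≤ α ∧ rate c α ≤ 1} := by
  ext α
  constructor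
  · intro hα
    change MapClusterPt α atTop (fun n : ℕ => (cn Q c n : ℝ) / Real.log n) at hα
    rw [mapClusterPt_iff_frequently] at hα
    have hα0 : 0 ≤ α := by
      by_contra hcon
      push Not at hcon
      have h3 := hα (Set.Iio 0) (Iio_mem_nhds hcon)
      obtain ⟨n, hn⟩ := h3.exists
      have h4 : 0 ≤ (cn Q c n : ℝ) / Real.log n := div_nonneg (Nat.cast_nonneg _) (Real.log_natCast_nonneg n)
      exact absurd hn (not_lt.2 h4)
    refine ⟨hα0, ?_⟩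
    by_contra hcon
    push Not at hcon
    obtain ⟨δ, hδ, h3⟩ := h2 α hα0 hcon
    have h4 := hα (Metric.ball α δ) (Metric.ball_mem_nhds α hδ)
    obtain ⟨n, hn1, hn2⟩ := (h4.and_eventually h3).exists
    rw [Metric.mem_ball, Real.dist_eq] at hn1
    exact hn2 hn1
  · rintro ⟨hα0, hα1⟩
    change MapClusterPt α atTop (fun n : ℕ => (cn Q c n : ℝ) / Real.log n)
    rw [mapClusterPt_iff_frequently]
    intro s hs
    obtain ⟨ε, hε, hball⟩ := Metric.mem_nhds_iff.1 hs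
    rw [frequently_atTop]
    intro a
    obtain ⟨X, g1, g2⟩ := ((h1 α hα0 hα1 ε hε).and (eventually_ge_atTop (a + 1))).exists
    have hX0 : (0 : ℝ) < X := by exact_mod_cast (by omega : 0 < X)
    have h3 := (Real.rpow_pos_of_pos hX0 _).trans_le g1
    have h4 : {n | n ∈ nearc Q c α ε ∧ X < n ∧ n ≤ 2 * X}.Nonempty := by
      apply Set.nonempty_of_ncard_ne_zero
      intro h
      rw [h] at h3
      simp at h3
    obtain ⟨n, hn1, hn2, hn3⟩ := h4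
    refine ⟨n, by omega, ?_⟩
    apply hball
    rw [Metric.mem_ball, Real.dist_eq]
    exact hn1

/-- the converse -/
theorem conv_cn (T : ℕ → ℕ) (hT : Monotone T)
    (hTs : ∀ ε : ℝ, 0 < ε → ∀ᶠ n : ℕ in atTop, (T n : ℝ) ≤ (n : ℝ) ^ ε) (E : ℕ → Set Ω)
    (hE : Sieved μ E T) (h : ∀ c : ℝ, 0 < c → ∀ᵐ ω ∂μ,
      {α : ℝ | MapClusterPt α atTop (fun n : ℕ => (cn {n | ω ∈ E n} c n : ℝ) / Real.log n)} =
        {α | 0 ≤ α ∧ rate c α ≤ 1}) (θ : ℝ) (hθ : 0 < θ) :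
    ∀ᶠ n : ℕ in atTop, (T n : ℝ) ≤ (Real.log n) ^ θ := by
  classical
  refine conv T hT hTs E hE ?_ θ hθ
  have A1 : ∀ᵐ ω ∂μ, ∀ N : ℕ,
      {α : ℝ | MapClusterPt α atTop (fun n : ℕ => (cn {n | ω ∈ E n} (1 + 1 / ((N : ℝ) + 1)) n : ℝ) / Real.log n)} =
        {α | 0 ≤ α ∧ rate (1 + 1 / ((N : ℝ) + 1)) α ≤ 1} :=
    ae_all_iff.2 (fun N => h _ (by positivity))
  filter_upwards [A1, inf hE hT hTs] with ω A1 A2 ε hε
  obtain ⟨Q, hQd⟩ : ∃ Q, Q = {n | ω ∈ E n} := ⟨_, rfl⟩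
  have hQ : Q.Infinite := by rw [hQd]; exact A2
  rw [← hQd] at A1 ⊢
  obtain ⟨N, hN⟩ := exists_nat_one_div_lt hε
  obtain ⟨c, hc⟩ : ∃ c : ℝ, c = 1 + 1 / ((N : ℝ) + 1) := ⟨_, rfl⟩
  have hc1 : 1 < c := by
    rw [hc]
    have : 0 < 1 / ((N : ℝ) + 1) := by positivity
    linarith
  have h1 := A1 N
  rw [← hc] at h1
  have h2 : (0 : ℝ) ∉ {α : ℝ | MapClusterPt α atTop (fun n : ℕ => (cn Q c n : ℝ) / Real.log n)} := by
    rw [h1]
    rintro ⟨-, h3⟩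
    rw [rate_zero] at h3
    linarith
  have h3 : ∀ᶠ n : ℕ in atTop, 0 < cn Q c n := by
    by_contra hcon
    rw [not_eventually] at hcon
    apply h2
    change MapClusterPt (0 : ℝ) atTop (fun n : ℕ => (cn Q c n : ℝ) / Real.log n)
    rw [mapClusterPt_iff_frequently]
    intro s hs
    apply hcon.mono
    intro n hn
    have h4 : cn Q c n = 0 := by omega
    change (cn Q c n : ℝ) / Real.log n ∈ s
    rw [h4, Nat.cast_zero, zero_div]
    exact mem_of_mem_nhds hs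
  have htend : Tendsto (qn Q) atTop atTop := (qn_mono Q hQ).tendsto_atTop
  filter_upwards [htend.eventually h3] with i hi
  unfold cn at hi
  obtain ⟨m, hm⟩ := card_pos.1 hi
  rw [mem_filter, mem_Ioc] at hm
  have h4 := qn_next Q hQ i m hm.2 hm.1.1
  have h5 : (qn Q (i + 1) : ℝ) ≤ qn Q i + wn c (qn Q i) := by exact_mod_cast h4.trans hm.1.2
  have h6 : (wn c (qn Q i) : ℝ) ≤ c * (Real.log (qn Q i)) ^ 2 := Nat.floor_le (by positivity)
  have h7 : c * (Real.log (qn Q i)) ^ 2 ≤ (1 + ε) * (Real.log (qn Q i)) ^ 2 := by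
    apply mul_le_mul_of_nonneg_right _ (sq_nonneg _)
    rw [hc]
    linarith
  linarith

end Pool.Agent.U839.Er
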