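import Mathlib
import Pool.Agent.U839.Er.CntD

set_option autoImplicit false

/-! # Several adjacent windows -/

open MeasureTheory ProbabilityTheory Filter Finset Topology

namespace Pool.Agent.U839.Er

open Pool.Agent.U839.Sv (wn log_sq_small fT fT_nonneg regular Sieved law' rho_small inf sub_pow)
open Pool.Agent.U839.Thin (tlog)
open Pool.Agent.U839.Gb (SS SS_mgf SS_int SS_eq SS_meas)
open Pool.Agent.U839.Ch (count_up Ys Ys_succ Ys_mono wn_mono)
open Pool.Agent.U839.Lp (bc)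

variable {Ω : Type*} [MeasurableSpace Ω] {μ : Measure Ω} [IsProbabilityMeasure μ]

/-- the `i`-th window after `n` -/
noncomputable def Wi (c : ℕ → ℝ) (n i : ℕ) : Finset ℕ := Ioc (n + wn (Ys c i) n) (n + wn (Ys c (i + 1)) n)

theorem Wi_sub (c : ℕ → ℝ) (hc : ∀ i, 0 < c i) (n i k : ℕ) (h : i < k) :
    Wi c n i ⊆ Ioc n (n + wn (Ys c k) n) := by
  intro m hm
  unfold Wi at hm
  rw [mem_Ioc] at hm ⊢
  have h1 := wn_mono (Ys_mono c k (fun j _ => (hc j).le) (i + 1) k h le_rfl) n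
  omega

theorem Wi_disj (c : ℕ → ℝ) (hc : ∀ i, 0 < c i) (n i j : ℕ) (h : i ≠ j) : Disjoint (Wi c n i) (Wi c n j) := by
  have key : ∀ i j, i < j → Disjoint (Wi c n i) (Wi c n j) := by
    intro i j h
    rw [Finset.disjoint_left]
    intro m h1 h2
    unfold Wi at h1 h2
    rw [mem_Ioc] at h1 h2
    have h3 := wn_mono (Ys_mono c j (fun j _ => (hc j).le) (i + 1) j h le_rfl) n
    omega
  rcases Nat.lt_or_gt_of_ne h with h1 | h1
  · exact key i j h1
  · exact (key j i h1).symm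

omit [MeasurableSpace Ω] in
theorem grp_mono (E : ℕ → Set Ω) {s t : Finset ℕ} (h : s ⊆ t) :
    (⨆ p ∈ (s : Set ℕ), MeasurableSpace.generateFrom {E p}) ≤
      ⨆ p ∈ (t : Set ℕ), MeasurableSpace.generateFrom {E p} :=
  biSup_mono (fun _ hp => by exact_mod_cast h (by exact_mod_cast hp))

/-- expected numbers -/
theorem sums0 (T : ℕ → ℕ) (hT : Monotone T)
    (hTl : ∀ θ : ℝ, 0 < θ → ∀ᶠ n : ℕ in atTop, (T n : ℝ) ≤ (Real.log n) ^ θ) {E : ℕ → Set Ω}
    (hE : Sieved μ E T) (C ε : ℝ) (hC : 0 ≤ C) (hε : 0 < ε) : ∀ᶠ n : ℕ in atTop,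
      |∑ m ∈ Ioc n (n + wn C n), μ.real (E m) - C * Real.log n| ≤ ε * Real.log n := by
  rcases hC.eq_or_lt with h | h
  · filter_upwards with n
    have h1 : wn C n = 0 := by
      unfold wn
      rw [← h, zero_mul, Nat.floor_zero]
    rw [h1, ← h]
    simp only [add_zero, Ioc_self, Finset.sum_empty, zero_mul, sub_self, abs_zero]
    exact mul_nonneg hε.le (Real.log_natCast_nonneg n)
  · filter_upwards [sums T hT hTl hE C (ε / C) h (by positivity)] with n hn
    refine hn.trans (le_of_eq ?_)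
    field_simp

theorem sumsW (T : ℕ → ℕ) (hT : Monotone T)
    (hTl : ∀ θ : ℝ, 0 < θ → ∀ᶠ n : ℕ in atTop, (T n : ℝ) ≤ (Real.log n) ^ θ) {E : ℕ → Set Ω}
    (hE : Sieved μ E T) (c : ℕ → ℝ) (hc : ∀ i, 0 < c i) (i : ℕ) (ε : ℝ) (hε : 0 < ε) : ∀ᶠ n : ℕ in atTop,
      |∑ m ∈ Wi c n i, μ.real (E m) - c i * Real.log n| ≤ ε * (c i * Real.log n) := by
  have hY : 0 ≤ Ys c i := by
    have := Ys_mono c i (fun j _ => (hc j).le) 0 i (by omega) le_rfl
    unfold Ys at this ⊢
    simpa using this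
  have hci := hc i
  filter_upwards [sums0 T hT hTl hE (Ys c i) (ε * c i / 2) hY (by positivity),
    sums0 T hT hTl hE (Ys c (i + 1)) (ε * c i / 2) (by rw [Ys_succ]; linarith) (by positivity)] with n g1 g2
  have h1 : wn (Ys c i) n ≤ wn (Ys c (i + 1)) n := wn_mono (by rw [Ys_succ]; linarith) n
  have h2 := Finset.sum_Ioc_consecutive (fun m => μ.real (E m)) (Nat.le_add_right n (wn (Ys c i) n))
    (Nat.add_le_add_left h1 n)
  unfold Wi
  rw [← h2, Ys_succ] at g2
  rw [Ys_succ]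
  rw [abs_le] at g1 g2 ⊢
  constructor <;> nlinarith [g1.1, g1.2, g2.1, g2.2]

/-- joint probabilities -/
theorem prod_W {E : ℕ → Set Ω} (hm : ∀ n, MeasurableSet (E n)) (hE : iIndepSet E μ) (c : ℕ → ℝ)
    (hc : ∀ i, 0 < c i) (n k : ℕ) (F : ℕ → Set Ω)
    (hF : ∀ i, MeasurableSet[⨆ p ∈ ((Wi c n i : Finset ℕ) : Set ℕ), MeasurableSpace.generateFrom {E p}] (F i)) :
    μ.real (⋂ i ∈ range k, F i) = ∏ i ∈ range k, μ.real (F i) := by
  have h1 := (group_meas hm hE (Wi c n) (fun a b hab => Wi_disj c hc n a b hab) F hF).meas_biInter (range k)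
  simp only [measureReal_def]
  rw [h1, ENNReal.toReal_prod]

/-- the density near `a` -/
def BB (E : ℕ → Set Ω) (s : Finset ℕ) (a d : ℝ) : Set Ω := {ω | |SS E s ω - a| ≤ d}

omit [MeasurableSpace Ω] in
theorem BB_grp (E : ℕ → Set Ω) (s : Finset ℕ) (a d : ℝ) :
    MeasurableSet[⨆ p ∈ (s : Set ℕ), MeasurableSpace.generateFrom {E p}] (BB E s a d) := by
  classical
  have h1 : BB E s a d = ⋃ j ∈ (range (s.card + 1)).filter (fun j : ℕ => |(j : ℝ) - a| ≤ d), DD E s j := by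
    ext ω
    simp only [Set.mem_iUnion, mem_filter, mem_range, exists_prop]
    constructor
    · intro h
      have h2 : |SS E s ω - a| ≤ d := h
      rw [SS_eq] at h2
      refine ⟨_, ⟨Nat.lt_succ_of_le (card_filter_le s (fun m => ω ∈ E m)), h2⟩, ?_⟩
      unfold DD AJ
      simp only [Set.mem_iUnion, Set.mem_iInter]
      refine ⟨s.filter (fun m => ω ∈ E m), mem_powersetCard.2 ⟨filter_subset _ _, rfl⟩, ?_⟩
      intro m hm
      by_cases h3 : ω ∈ E m
      · rw [if_pos (mem_filter.2 ⟨hm, h3⟩)]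
        exact h3
      · rw [if_neg (show m ∉ s.filter (fun m => ω ∈ E m) from fun h => h3 (mem_filter.1 h).2)]
        exact h3
    · rintro ⟨j, ⟨-, h2⟩, h3⟩
      change |SS E s ω - a| ≤ d
      rw [SS_eq]
      have h4 := DD_card E s j ω h3
      rw [h4]
      exact h2
  rw [h1]
  apply Finset.measurableSet_biUnion
  intro j _
  exact DD_meas E s j

open Classical in
/-- densities of the windows -/
noncomputable def VV (Q : Set ℕ) (c : ℕ → ℝ) (k n : ℕ) : Fin k → ℝ := fun i =>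
  ((Wi c n i).filter (fun m => m ∈ Q)).card / Real.log n

/-- the total rate -/
noncomputable def Rt (c : ℕ → ℝ) (k : ℕ) (α : Fin k → ℝ) : ℝ := ∑ i : Fin k, rate (c i) (α i)

end Pool.Agent.U839.Er
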