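import Mathlib
import Pool.Agent.U839.Er.Multi

set_option autoImplicit false

/-! # Joint densities, for fixed densities -/

open MeasureTheory ProbabilityTheory Filter Finset Topology

namespace Pool.Agent.U839.Er

open Pool.Agent.U839.Sv (wn log_sq_small fT fT_nonneg regular Sieved law' rho_small inf sub_pow)
open Pool.Agent.U839.Thin (tlog)
open Pool.Agent.U839.Gb (SS SS_mgf SS_int SS_eq SS_meas)
open Pool.Agent.U839.Ch (count_up Ys Ys_succ Ys_mono wn_mono)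
open Pool.Agent.U839.Lp (bc)

variable {Ω : Type*} [MeasurableSpace Ω] {μ : Measure Ω} [IsProbabilityMeasure μ]

/-- extension of a vector -/
noncomputable def ext0 (k : ℕ) (α : Fin k → ℝ) (i : ℕ) : ℝ := if h : i < k then α ⟨i, h⟩ else 0

theorem ext0_eq (k : ℕ) (α : Fin k → ℝ) (i : Fin k) : ext0 k α i = α i := by
  unfold ext0
  rw [dif_pos i.2]

theorem ext0_nonneg (k : ℕ) (α : Fin k → ℝ) (hα : ∀ i, 0 ≤ α i) (i : ℕ) : 0 ≤ ext0 k α i := by
  unfold ext0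
  split_ifs
  · exact hα _
  · exact le_rfl

theorem Rt_range (c : ℕ → ℝ) (k : ℕ) (α : Fin k → ℝ) : Rt c k α = ∑ i ∈ range k, rate (c i) (ext0 k α i) := by
  unfold Rt
  rw [Finset.sum_range]
  apply sum_congr rfl
  intro i _
  rw [ext0_eq]

theorem Wi_grp (E : ℕ → Set Ω) (c : ℕ → ℝ) (hc : ∀ i, 0 < c i) (n k : ℕ) (F : ℕ → Set Ω)
    (hF : ∀ i, MeasurableSet[⨆ p ∈ ((Wi c n i : Finset ℕ) : Set ℕ), MeasurableSpace.generateFrom {E p}] (F i)) :
    MeasurableSet[⨆ p ∈ ((Ioc n (n + wn (Ys c k + 1) n) : Finset ℕ) : Set ℕ),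
      MeasurableSpace.generateFrom {E p}] (⋂ i ∈ range k, F i) := by
  apply Finset.measurableSet_biInter
  intro i hi
  have h1 : Wi c n i ⊆ Ioc n (n + wn (Ys c k + 1) n) := by
    refine (Wi_sub c hc n i k (mem_range.1 hi)).trans ?_
    intro m hm
    rw [mem_Ioc] at hm ⊢
    have := wn_mono (show Ys c k ≤ Ys c k + 1 by linarith) n
    omega
  exact grp_mono E h1 _ (hF i)

theorem meas_of_grp (E : ℕ → Set Ω) (hm : ∀ n, MeasurableSet (E n)) (s : Finset ℕ) (D : Set Ω)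
    (h : MeasurableSet[⨆ p ∈ (s : Set ℕ), MeasurableSpace.generateFrom {E p}] D) : MeasurableSet D := by
  have hle : ∀ p, MeasurableSpace.generateFrom {E p} ≤ (inferInstance : MeasurableSpace Ω) := by
    intro p
    apply MeasurableSpace.generateFrom_le
    intro t ht
    rw [Set.mem_singleton_iff.1 ht]
    exact hm p
  exact (iSup₂_le (fun p _ => hle p)) _ h

theorem Ys_nn (c : ℕ → ℝ) (hc : ∀ i, 0 < c i) (k : ℕ) : 0 ≤ Ys c k := by
  have := Ys_mono c k (fun j _ => (hc j).le) 0 k (by omega) le_rfl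
  unfold Ys at this ⊢
  simpa using this

theorem VV_near (E : ℕ → Set Ω) (c : ℕ → ℝ) (k n : ℕ) (ω : Ω) (i : Fin k) :
    VV {n | ω ∈ E n} c k n i = SS E (Wi c n i) ω / Real.log n := by
  classical
  rw [SS_eq]
  unfold VV
  norm_cast

open Classical in
/-- many windows -/
theorem ptM_many (T : ℕ → ℕ) (hT : Monotone T)
    (hTl : ∀ θ : ℝ, 0 < θ → ∀ᶠ n : ℕ in atTop, (T n : ℝ) ≤ (Real.log n) ^ θ) {E : ℕ → Set Ω}
    (hE : Sieved μ E T) (c : ℕ → ℝ) (hc : ∀ i, 0 < c i) (k : ℕ) (α : Fin k → ℝ) (hα : ∀ i, 0 ≤ α i)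
    (hI : Rt c k α ≤ 1) (ε : ℝ) (hε : 0 < ε) :
    ∀ᵐ ω ∂μ, ∀ᶠ X : ℕ in atTop, (X : ℝ) ^ (1 - Rt c k α - ε) ≤
      (((Ioc X (2 * X)).filter (fun n => dist (VV {n | ω ∈ E n} c k n) α < ε)).card : ℝ) := by
  have hTs := sub_pow T 1 (hTl 1 one_pos)
  obtain ⟨Mx, hMx⟩ : ∃ Mx, Mx = ∑ i : Fin k, |c i - α i| := ⟨_, rfl⟩
  have hMx0 : 0 ≤ Mx := by rw [hMx]; exact sum_nonneg (fun _ _ => abs_nonneg _)
  have hMxi : ∀ i : Fin k, |c i - α i| ≤ Mx := by
    intro i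
    rw [hMx]
    exact Finset.single_le_sum (f := fun i : Fin k => |c i - α i|) (fun _ _ => abs_nonneg _) (mem_univ i)
  obtain ⟨s, hs⟩ : ∃ s : ℝ, s = min 1 (ε / (4 * (Mx + 1))) := ⟨_, rfl⟩
  have hs0 : 0 < s := by rw [hs]; exact lt_min one_pos (by positivity)
  have hs1 : s ≤ 1 := by rw [hs]; exact min_le_left _ _
  have hs2 : s * (Mx + 1) ≤ ε / 4 := by
    have h1 : s ≤ ε / (4 * (Mx + 1)) := by rw [hs]; exact min_le_right _ _
    rw [le_div_iff₀ (by positivity)] at h1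
    linarith
  have hs4 : s ≤ ε / 4 := by nlinarith
  obtain ⟨β, hβ⟩ : ∃ β : Fin k → ℝ, β = fun i => (1 - s) * α i + s * c i := ⟨_, rfl⟩
  have hβ0 : ∀ i, 0 ≤ β i := by
    intro i
    rw [hβ]
    have h1 : 0 ≤ (1 - s) * α i := mul_nonneg (by linarith) (hα i)
    have h2 := hc i
    simp only
    positivity
  have hβα : ∀ i, |β i - α i| ≤ ε / 4 := by
    intro i
    have h1 : β i - α i = s * (c i - α i) := by rw [hβ]; ring
    rw [h1, abs_mul, abs_of_pos hs0]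
    have := hMxi i
    nlinarith
  have hr : Rt c k β ≤ (1 - s) * Rt c k α := by
    unfold Rt
    rw [mul_sum]
    apply sum_le_sum
    intro i _
    rw [hβ]
    exact rate_conv (c i) (α i) s (hc i) (hα i) hs0.le hs1
  have hr0 : 0 ≤ Rt c k α := sum_nonneg (fun i _ => rate_nonneg (c i) (α i) (hc i) (hα i))
  have hr1 : Rt c k β ≤ Rt c k α := by nlinarith
  have hr2 : Rt c k β ≤ 1 - s := by nlinarith
  have hrβ : 0 ≤ Rt c k β := sum_nonneg (fun i _ => rate_nonneg (c i) (β i) (hc i) (hβ0 i))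
  obtain ⟨η, hη⟩ : ∃ η : ℝ, η = s / (8 * ((k : ℝ) + 1)) := ⟨_, rfl⟩
  have hη0 : 0 < η := by rw [hη]; positivity
  have hkη : (k : ℝ) * η ≤ s / 8 := by
    rw [hη]
    have : (k : ℝ) * (s / (8 * ((k : ℝ) + 1))) = s / 8 * (k / (k + 1)) := by
      field_simp
    rw [this]
    have h1 : (k : ℝ) / (k + 1) ≤ 1 := by
      rw [div_le_one (by positivity)]
      linarith
    nlinarith
  have hk0 : (0 : ℝ) ≤ k := Nat.cast_nonneg k
  obtain ⟨D₀, hD₀⟩ : ∃ D₀ : ℕ → Set Ω, D₀ = fun n => ⋂ i ∈ range k, DD E (Wi c n i) ⌊ext0 k β i * Real.log n⌋₊ :=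
    ⟨_, rfl⟩
  have hlow : ∀ i ∈ range k, ∀ᶠ n : ℕ in atTop, (n : ℝ) ^ (-(rate (c i) (ext0 k β i) + η)) ≤
      μ.real (DD E (Wi c n i) ⌊ext0 k β i * Real.log n⌋₊) := by
    intro i _
    obtain ⟨ε₁, h1, h2, h3⟩ := low_exp (c i) (ext0 k β i) η (hc i) (ext0_nonneg k β hβ0 i) hη0
    filter_upwards [h3, sumsW T hT hTl hE c hc i ε₁ h1, eventually_forall_ge_atTop.2 (law' hE hTs),
      eventually_forall_ge_atTop.2 (rho_small T hTs ε₁ h1)] with n g1 g2 g3 g4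
    have hp : ∀ m ∈ Wi c n i, 0 ≤ μ.real (E m) ∧ 2 * μ.real (E m) ≤ ε₁ := by
      intro m hm
      unfold Wi at hm
      rw [mem_Ioc] at hm
      rw [g3 m (by omega)]
      exact g4 m (by omega)
    exact (g1 _ _ hp g2).trans (DD_low hE.meas hE.indep _ _ ε₁ h1.le h2 (fun m hm => (hp m hm).2))
  have h4 := cntD hE.meas hE.indep (Ys c k + 1) (by have := Ys_nn c hc k; linarith) D₀ (by
      intro n
      rw [hD₀]
      exact Wi_grp E c hc n k _ (fun i => DD_meas E (Wi c n i) _))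
    (Rt c k β + k * η) (s / 8) (by positivity) (by positivity) (by linarith) (by
      filter_upwards [(Filter.eventually_all_finset (range k)).2 hlow, eventually_ge_atTop 1] with n g1 g2
      have hn0 : (0 : ℝ) < n := by exact_mod_cast g2
      rw [hD₀]
      simp only
      rw [prod_W hE.meas hE.indep c hc n k _ (fun i => DD_meas E (Wi c n i) _)]
      have h5 : (n : ℝ) ^ (-(Rt c k β + k * η)) = ∏ i ∈ range k, (n : ℝ) ^ (-(rate (c i) (ext0 k β i) + η)) := by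
        rw [← Real.rpow_sum_of_pos hn0]
        congr 1
        rw [sum_neg_distrib, sum_add_distrib, sum_const, card_range, nsmul_eq_mul, Rt_range]
      rw [h5]
      exact prod_le_prod (fun i _ => Real.rpow_nonneg hn0.le _) g1)
  filter_upwards [h4] with ω h4
  filter_upwards [h4, eventually_ge_atTop 2, tlog.eventually_ge_atTop (4 / ε)] with X g1 g2 g3
  have hX1 : (1 : ℝ) ≤ X := by exact_mod_cast (by omega : 1 ≤ X)
  have hX0 : (0 : ℝ) < X := by linarith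
  have h5 : (X : ℝ) ^ (1 - Rt c k α - ε) ≤ (X : ℝ) ^ (1 - (Rt c k β + k * η) - 4 * (s / 8)) :=
    Real.rpow_le_rpow_of_exponent_le hX1 (by linarith)
  refine h5.trans (g1.trans ?_)
  have h6 : (Ioc X (2 * X)).filter (fun n => ω ∈ D₀ n) ⊆
      (Ioc X (2 * X)).filter (fun n => dist (VV {n | ω ∈ E n} c k n) α < ε) := by
    intro n hn
    rw [mem_filter] at hn ⊢
    refine ⟨hn.1, ?_⟩
    obtain ⟨hn1, hn2⟩ := hn
    rw [mem_Ioc] at hn1
    rw [dist_pi_lt_iff hε]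
    intro i
    rw [Real.dist_eq]
    rw [hD₀] at hn2
    simp only [Set.mem_iInter] at hn2
    have h7 := DD_card E _ _ ω (hn2 i (mem_range.2 i.2))
    rw [ext0_eq] at h7
    have h7' : SS E (Wi c n i) ω = (⌊β i * Real.log n⌋₊ : ℝ) := by
      rw [SS_eq]
      rw [← h7]
    rw [VV_near]
    have hLn : 4 / ε ≤ Real.log n := g3.trans (Real.log_le_log hX0 (by exact_mod_cast hn1.1.le))
    have hL0 : 0 < Real.log n := lt_of_lt_of_le (by positivity) hLn
    rw [div_le_iff₀ hε] at hLn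
    have h8 : SS E (Wi c n i) ω ≤ β i * Real.log n := by
      rw [h7']
      exact Nat.floor_le (mul_nonneg (hβ0 i) hL0.le)
    have h9 : β i * Real.log n - 1 ≤ SS E (Wi c n i) ω := by
      rw [h7']
      exact (Nat.sub_one_lt_floor _).le
    have h10 : |SS E (Wi c n i) ω / Real.log n - β i| ≤ ε / 4 := by
      rw [abs_le]
      constructor
      · have : β i - ε / 4 ≤ SS E (Wi c n i) ω / Real.log n := by
          rw [le_div_iff₀ hL0]
          nlinarith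
        linarith
      · have : SS E (Wi c n i) ω / Real.log n ≤ β i + ε / 4 := by
          rw [div_le_iff₀ hL0]
          nlinarith
        linarith
    calc |SS E (Wi c n i) ω / Real.log n - α i| =
        |(SS E (Wi c n i) ω / Real.log n - β i) + (β i - α i)| := by ring_nf
      _ ≤ ε / 4 + ε / 4 := (abs_add_le _ _).trans (add_le_add h10 (hβα i))
      _ < ε := by linarith
  exact_mod_cast card_le_card h6

/-- the events for the upper bounds -/
theorem upV (T : ℕ → ℕ) (hT : Monotone T)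
    (hTl : ∀ θ : ℝ, 0 < θ → ∀ᶠ n : ℕ in atTop, (T n : ℝ) ≤ (Real.log n) ^ θ) {E : ℕ → Set Ω}
    (hE : Sieved μ E T) (c : ℕ → ℝ) (hc : ∀ i, 0 < c i) (k : ℕ) (α : Fin k → ℝ) (hα : ∀ i, 0 ≤ α i)
    (η : ℝ) (hη : 0 < η) : ∃ δ : ℝ, 0 < δ ∧ ∃ B : ℕ → Set Ω, (∀ n, MeasurableSet (B n)) ∧
      (∀ᶠ n : ℕ in atTop, μ.real (B n) ≤ 1 * (1 / (n : ℝ) ^ (Rt c k α - η))) ∧
      ∀ n ω, dist (VV {n | ω ∈ E n} c k n) α < δ → ω ∈ B n := by
  obtain ⟨e, he⟩ : ∃ e : ℝ, e = η / ((k : ℝ) + 1) := ⟨_, rfl⟩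
  have he0 : 0 < e := by rw [he]; positivity
  have hke : (k : ℝ) * e ≤ η := by
    rw [he]
    have : (k : ℝ) * (η / ((k : ℝ) + 1)) = η * (k / (k + 1)) := by field_simp
    rw [this]
    have h1 : (k : ℝ) / (k + 1) ≤ 1 := by
      rw [div_le_one (by positivity)]
      linarith
    nlinarith
  have hup : ∀ i : ℕ, ∃ δ : ℝ, 0 < δ ∧ ∃ ε : ℝ, 0 < ε ∧
    ∀ (E : ℕ → Set Ω), (∀ n, MeasurableSet (E n)) → iIndepSet E μ → ∀ (s : Finset ℕ) (L : ℝ), 0 ≤ L →
      |∑ m ∈ s, μ.real (E m) - c i * L| ≤ ε * (c i * L) →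
      μ.real {ω | |SS E s ω - ext0 k α i * L| ≤ δ * L} ≤ Real.exp (-((rate (c i) (ext0 k α i) - e) * L)) :=
    fun i => up_exp (μ := μ) (c i) (ext0 k α i) e (hc i) (ext0_nonneg k α hα i) he0
  choose d hd ε₁ hε₁ H using hup
  obtain ⟨δ, hδ⟩ : ∃ δ : ℝ, δ = 1 / (1 + ∑ i ∈ range k, 1 / d i) := ⟨_, rfl⟩
  have hsum0 : 0 ≤ ∑ i ∈ range k, 1 / d i := sum_nonneg (fun i _ => by have := hd i; positivity)
  have hδ0 : 0 < δ := by rw [hδ]; positivity
  have hδd : ∀ i ∈ range k, δ ≤ d i := by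
    intro i hi
    have h1 : 1 / d i ≤ ∑ i ∈ range k, 1 / d i :=
      Finset.single_le_sum (f := fun i => 1 / d i) (fun i _ => by have := hd i; positivity) hi
    have h2 : 1 / (1 + ∑ i ∈ range k, 1 / d i) ≤ 1 / (1 / d i) :=
      one_div_le_one_div_of_le (by have := hd i; positivity) (by linarith)
    rw [one_div_one_div] at h2
    rw [hδ]
    exact h2
  refine ⟨δ, hδ0, fun n => ⋂ i ∈ range k, BB E (Wi c n i) (ext0 k α i * Real.log n) (d i * Real.log n), ?_, ?_, ?_⟩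
  · intro n
    exact meas_of_grp E hE.meas _ _ (Wi_grp E c hc n k _ (fun i => BB_grp E (Wi c n i) _ _))
  · filter_upwards [(Filter.eventually_all_finset (range k)).2 (fun i _ => sumsW T hT hTl hE c hc i (ε₁ i) (hε₁ i)),
      eventually_ge_atTop 1] with n g1 g2
    have hn1 : (1 : ℝ) ≤ n := by exact_mod_cast g2
    have hn0 : (0 : ℝ) < n := by linarith
    rw [prod_W hE.meas hE.indep c hc n k _ (fun i => BB_grp E (Wi c n i) _ _)]
    have h1 : ∏ i ∈ range k, μ.real (BB E (Wi c n i) (ext0 k α i * Real.log n) (d i * Real.log n)) ≤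
        ∏ i ∈ range k, (n : ℝ) ^ (-(rate (c i) (ext0 k α i) - e)) := by
      apply prod_le_prod (fun i _ => measureReal_nonneg)
      intro i hi
      refine (H i E hE.meas hE.indep (Wi c n i) (Real.log n) (Real.log_natCast_nonneg n) (g1 i hi)).trans
        (le_of_eq ?_)
      rw [Real.rpow_def_of_pos hn0]
      congr 1
      ring
    refine h1.trans ?_
    rw [← Real.rpow_sum_of_pos hn0, one_mul, one_div, ← Real.rpow_neg hn0.le]
    apply Real.rpow_le_rpow_of_exponent_le hn1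
    rw [sum_neg_distrib, sum_sub_distrib, sum_const, card_range, nsmul_eq_mul, Rt_range]
    linarith
  · intro n ω h
    simp only [Set.mem_iInter]
    intro i hi
    have hik := mem_range.1 hi
    rw [dist_pi_lt_iff hδ0] at h
    have h1 := h ⟨i, hik⟩
    rw [Real.dist_eq, VV_near] at h1
    have h2 : ext0 k α i = α ⟨i, hik⟩ := ext0_eq k α ⟨i, hik⟩
    change |SS E (Wi c n i) ω - ext0 k α i * Real.log n| ≤ d i * Real.log n
    rw [h2]
    rcases (Real.log_natCast_nonneg n).eq_or_lt with h3 | h3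
    · have h4 : Wi c n i = ∅ := by
        unfold Wi wn
        rw [← h3]
        simp
      rw [h4, ← h3]
      simp [SS]
    · have h4 : SS E (Wi c n i) ω - α ⟨i, hik⟩ * Real.log n =
          (SS E (Wi c n i) ω / Real.log n - α ⟨i, hik⟩) * Real.log n := by
        field_simp
      rw [h4, abs_mul, abs_of_pos h3]
      have h5 := hδd i hi
      apply mul_le_mul_of_nonneg_right _ h3.le
      exact h1.le.trans h5

open Classical in
/-- few windows -/
theorem ptM_few (T : ℕ → ℕ) (hT : Monotone T)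
    (hTl : ∀ θ : ℝ, 0 < θ → ∀ᶠ n : ℕ in atTop, (T n : ℝ) ≤ (Real.log n) ^ θ) {E : ℕ → Set Ω}
    (hE : Sieved μ E T) (c : ℕ → ℝ) (hc : ∀ i, 0 < c i) (k : ℕ) (α : Fin k → ℝ) (hα : ∀ i, 0 ≤ α i)
    (hI : Rt c k α ≤ 1) (ε : ℝ) (hε : 0 < ε) :
    ∃ δ : ℝ, 0 < δ ∧ ∀ᵐ ω ∂μ, ∀ᶠ X : ℕ in atTop,
      (((range (X + 1)).filter (fun n => dist (VV {n | ω ∈ E n} c k n) α < δ)).card : ℝ) ≤
        (X : ℝ) ^ (1 - Rt c k α + ε) := by
  obtain ⟨δ, hδ, B, hB1, hB2, hB3⟩ := upV T hT hTl hE c hc k α hα (ε / 4) (by positivity)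
  refine ⟨δ, hδ, ?_⟩
  have h1 := count_up (μ := μ) B hB1 1 (Rt c k α - ε / 4) (1 - Rt c k α + ε / 2) (by linarith) (by linarith) hB2
  filter_upwards [h1] with ω h1
  obtain ⟨M, hM, h3⟩ := h1
  have e5 : ∀ᶠ x : ℕ in atTop, M ≤ (x : ℝ) ^ (ε / 2) :=
    ((tendsto_rpow_atTop (half_pos hε)).comp tendsto_natCast_atTop_atTop).eventually_ge_atTop _
  filter_upwards [eventually_ge_atTop 1, e5] with X g1 g2
  have hX0 : (0 : ℝ) < X := by exact_mod_cast g1
  have h4 := h3 X g1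
  have h5 : (((range (X + 1)).filter (fun n => dist (VV {n | ω ∈ E n} c k n) α < δ)).card : ℝ) ≤
      M * (X : ℝ) ^ (1 - Rt c k α + ε / 2) := by
    refine le_trans ?_ h4
    have : (range (X + 1)).filter (fun n => dist (VV {n | ω ∈ E n} c k n) α < δ) ⊆
        (range (X + 1)).filter (fun n => ω ∈ B n) := by
      intro n hn
      rw [mem_filter] at hn ⊢
      exact ⟨hn.1, hB3 n ω hn.2⟩
    exact_mod_cast card_le_card this
  refine h5.trans ?_
  calc M * (X : ℝ) ^ (1 - Rt c k α + ε / 2) ≤ (X : ℝ) ^ (ε / 2) * (X : ℝ) ^ (1 - Rt c k α + ε / 2) := by gcongr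
    _ = (X : ℝ) ^ (1 - Rt c k α + ε) := by
      rw [← Real.rpow_add hX0]
      congr 1
      ring

/-- no windows -/
theorem ptM_none (T : ℕ → ℕ) (hT : Monotone T)
    (hTl : ∀ θ : ℝ, 0 < θ → ∀ᶠ n : ℕ in atTop, (T n : ℝ) ≤ (Real.log n) ^ θ) {E : ℕ → Set Ω}
    (hE : Sieved μ E T) (c : ℕ → ℝ) (hc : ∀ i, 0 < c i) (k : ℕ) (α : Fin k → ℝ) (hα : ∀ i, 0 ≤ α i)
    (hI : 1 < Rt c k α) :
    ∃ δ : ℝ, 0 < δ ∧ ∀ᵐ ω ∂μ, ∀ᶠ n : ℕ in atTop, ¬ dist (VV {n | ω ∈ E n} c k n) α < δ := by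
  obtain ⟨δ, hδ, B, hB1, hB2, hB3⟩ := upV T hT hTl hE c hc k α hα ((Rt c k α - 1) / 2) (by linarith)
  refine ⟨δ, hδ, ?_⟩
  have h1 := bc (μ := μ) B 1 (Rt c k α - (Rt c k α - 1) / 2) (by linarith) hB2
  filter_upwards [h1] with ω h1
  filter_upwards [h1] with n h1 h2
  exact h1 (hB3 n ω h2)

end Pool.Agent.U839.Er
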