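import Mathlib
import Pool.Agent.U839.Er.PtM

set_option autoImplicit false

/-! # The joint law of the numbers of elements of adjacent windows -/

open MeasureTheory ProbabilityTheory Filter Finset Topology

namespace Pool.Agent.U839.Er

open Pool.Agent.U839.Sv (wn Sieved inf sub_pow)
open Pool.Agent.U839.Thin (tlog)
open Pool.Agent.U839.Ch (Ys Ys_succ)

variable {Ω : Type*} [MeasurableSpace Ω] {μ : Measure Ω} [IsProbabilityMeasure μ]

theorem Rt_cont (c : ℕ → ℝ) (hc : ∀ i, 0 < c i) (k : ℕ) : Continuous (Rt c k) := by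
  unfold Rt
  exact continuous_finsetSum _ (fun i _ => (rate_cont (c i) (hc i)).comp (continuous_apply i))

/-- the region of the limit points -/
def reg (c : ℕ → ℝ) (k : ℕ) : Set (Fin k → ℝ) := {α | (∀ i, 0 ≤ α i) ∧ Rt c k α ≤ 1}

theorem manyM_all (T : ℕ → ℕ) (hT : Monotone T)
    (hTl : ∀ θ : ℝ, 0 < θ → ∀ᶠ n : ℕ in atTop, (T n : ℝ) ≤ (Real.log n) ^ θ) {E : ℕ → Set Ω}
    (hE : Sieved μ E T) (c : ℕ → ℝ) (hc : ∀ i, 0 < c i) (k : ℕ) :
    ∀ᵐ ω ∂μ, ∀ α ∈ reg c k, ∀ ε : ℝ, 0 < ε →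
      ∀ᶠ X : ℕ in atTop, (X : ℝ) ^ (1 - Rt c k α - ε) ≤
        ({n | dist (VV {n | ω ∈ E n} c k n) α < ε ∧ X < n ∧ n ≤ 2 * X}.ncard : ℝ) := by
  classical
  obtain ⟨t, ht1, ht2, ht3⟩ := (TopologicalSpace.IsSeparable.of_separableSpace
    (reg c k)).exists_countable_dense_subset
  have A1 : ∀ᵐ ω ∂μ, ∀ α ∈ t, ∀ N : ℕ, ∀ᶠ X : ℕ in atTop, (X : ℝ) ^ (1 - Rt c k α - 1 / ((N : ℝ) + 1)) ≤
      (((Ioc X (2 * X)).filter (fun n => dist (VV {n | ω ∈ E n} c k n) α < 1 / ((N : ℝ) + 1))).card : ℝ) :=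
    (ae_ball_iff ht2).2 (fun α hα => ae_all_iff.2 (fun N =>
      ptM_many T hT hTl hE c hc k α (ht1 hα).1 (ht1 hα).2 (1 / ((N : ℝ) + 1)) (by positivity)))
  filter_upwards [A1] with ω A1 α hα ε hε
  have hnb : {β : Fin k → ℝ | dist β α < ε / 2 ∧ Rt c k β < Rt c k α + ε / 2} ∈ 𝓝 α := by
    apply Filter.inter_mem
    · have : Metric.ball α (ε / 2) ∈ 𝓝 α := Metric.ball_mem_nhds α (by positivity)
      exact this
    · exact (Rt_cont c hc k).continuousAt.eventually (gt_mem_nhds (by linarith))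
  obtain ⟨β, ⟨hβ1, hβ2⟩, hβt⟩ := mem_closure_iff_nhds.1 (ht3 hα) _ hnb
  obtain ⟨N, hN⟩ := exists_nat_one_div_lt (half_pos hε)
  filter_upwards [A1 β hβt N, eventually_ge_atTop 1] with X g1 g2
  have hX1 : (1 : ℝ) ≤ X := by exact_mod_cast g2
  refine (Real.rpow_le_rpow_of_exponent_le hX1 (by linarith)).trans (g1.trans ?_)
  have h1 : (((Ioc X (2 * X)).filter (fun n => dist (VV {n | ω ∈ E n} c k n) β < 1 / ((N : ℝ) + 1)) :
      Finset ℕ) : Set ℕ).ncard ≤ {n | dist (VV {n | ω ∈ E n} c k n) α < ε ∧ X < n ∧ n ≤ 2 * X}.ncard := by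
    apply Set.ncard_le_ncard
    · intro n hn
      rw [Finset.mem_coe, mem_filter, mem_Ioc] at hn
      refine ⟨?_, hn.1⟩
      calc dist (VV {n | ω ∈ E n} c k n) α ≤ dist (VV {n | ω ∈ E n} c k n) β + dist β α := dist_triangle _ _ _
        _ < ε := by linarith [hn.2]
    · apply (Set.finite_Iic (2 * X)).subset
      rintro n ⟨-, -, hn⟩
      exact hn
  rw [Set.ncard_coe_finset] at h1
  exact_mod_cast h1

theorem fewM_all (T : ℕ → ℕ) (hT : Monotone T)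
    (hTl : ∀ θ : ℝ, 0 < θ → ∀ᶠ n : ℕ in atTop, (T n : ℝ) ≤ (Real.log n) ^ θ) {E : ℕ → Set Ω}
    (hE : Sieved μ E T) (c : ℕ → ℝ) (hc : ∀ i, 0 < c i) (k : ℕ) :
    ∀ᵐ ω ∂μ, ∀ α ∈ reg c k, ∀ ε : ℝ, 0 < ε →
      ∃ δ : ℝ, 0 < δ ∧ ∀ᶠ X : ℕ in atTop,
        ({n | dist (VV {n | ω ∈ E n} c k n) α < δ ∧ n ≤ X}.ncard : ℝ) ≤ (X : ℝ) ^ (1 - Rt c k α + ε) := by
  classical
  have A1 : ∀ᵐ ω ∂μ, ∀ N : ℕ, ∀ α ∈ reg c k, ∃ δ : ℝ, 0 < δ ∧ ∀ᶠ X : ℕ in atTop,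
        ({n | dist (VV {n | ω ∈ E n} c k n) α < δ ∧ n ≤ X}.ncard : ℝ) ≤
          (X : ℝ) ^ (1 - Rt c k α + 2 * (1 / ((N : ℝ) + 1))) := by
    rw [ae_all_iff]
    intro N
    obtain ⟨e, he⟩ : ∃ e : ℝ, e = 1 / ((N : ℝ) + 1) := ⟨_, rfl⟩
    have he0 : 0 < e := by rw [he]; positivity
    rw [← he]
    have h1 : ∀ α : Fin k → ℝ, ∃ δ : ℝ, 0 < δ ∧ (α ∈ reg c k → ∀ᵐ ω ∂μ, ∀ᶠ X : ℕ in atTop,
      (((range (X + 1)).filter (fun n => dist (VV {n | ω ∈ E n} c k n) α < δ)).card : ℝ) ≤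
        (X : ℝ) ^ (1 - Rt c k α + e)) := by
      intro α
      by_cases h : α ∈ reg c k
      · obtain ⟨δ, hδ, hh⟩ := ptM_few T hT hTl hE c hc k α h.1 h.2 e he0
        exact ⟨δ, hδ, fun _ => hh⟩
      · exact ⟨1, one_pos, fun h1 => absurd h1 h⟩
    choose δ hδ h1 using h1
    obtain ⟨t, ht1, ht2, ht3⟩ := TopologicalSpace.countable_cover_nhdsWithin
      (s := reg c k) (f := fun α => Metric.ball α (δ α) ∩ {β : Fin k → ℝ | Rt c k β < Rt c k α + e}) (by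
        intro α _
        apply mem_nhdsWithin_of_mem_nhds
        apply Filter.inter_mem (Metric.ball_mem_nhds α (hδ α))
        exact (Rt_cont c hc k).continuousAt.eventually (gt_mem_nhds (by linarith)))
    have A2 := (ae_ball_iff ht2).2 (fun α hα => h1 α (ht1 hα))
    filter_upwards [A2] with ω A2 β hβ
    have hβ2 := ht3 hβ
    simp only [Set.mem_iUnion] at hβ2
    obtain ⟨α, hαt, hβα, hβr⟩ := hβ2
    have hβr' : Rt c k β < Rt c k α + e := hβr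
    rw [Metric.mem_ball] at hβα
    refine ⟨δ α - dist β α, by linarith, ?_⟩
    filter_upwards [A2 α hαt, eventually_ge_atTop 1] with X g1 g2
    have hX1 : (1 : ℝ) ≤ X := by exact_mod_cast g2
    have h2 : {n | dist (VV {n | ω ∈ E n} c k n) β < δ α - dist β α ∧ n ≤ X}.ncard ≤
        (((range (X + 1)).filter (fun n => dist (VV {n | ω ∈ E n} c k n) α < δ α) :
          Finset ℕ) : Set ℕ).ncard := by
      apply Set.ncard_le_ncard _ (Finset.finite_toSet _)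
      rintro n ⟨hn1, hn2⟩
      rw [Finset.mem_coe, mem_filter, mem_range]
      refine ⟨by omega, ?_⟩
      calc dist (VV {n | ω ∈ E n} c k n) α ≤ dist (VV {n | ω ∈ E n} c k n) β + dist β α := dist_triangle _ _ _
        _ < δ α := by linarith
    rw [Set.ncard_coe_finset] at h2
    have h3 : ({n | dist (VV {n | ω ∈ E n} c k n) β < δ α - dist β α ∧ n ≤ X}.ncard : ℝ) ≤
      (((range (X + 1)).filter (fun n => dist (VV {n | ω ∈ E n} c k n) α < δ α)).card : ℝ) := by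
      exact_mod_cast h2
    refine h3.trans (g1.trans (Real.rpow_le_rpow_of_exponent_le hX1 (by linarith)))
  filter_upwards [A1] with ω A1 α hα ε hε
  obtain ⟨N, hN⟩ := exists_nat_one_div_lt (half_pos hε)
  obtain ⟨δ, hδ, h1⟩ := A1 N α hα
  refine ⟨δ, hδ, ?_⟩
  filter_upwards [h1, eventually_ge_atTop 1] with X g1 g2
  have hX1 : (1 : ℝ) ≤ X := by exact_mod_cast g2
  exact g1.trans (Real.rpow_le_rpow_of_exponent_le hX1 (by linarith))

theorem noneM_all (T : ℕ → ℕ) (hT : Monotone T)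
    (hTl : ∀ θ : ℝ, 0 < θ → ∀ᶠ n : ℕ in atTop, (T n : ℝ) ≤ (Real.log n) ^ θ) {E : ℕ → Set Ω}
    (hE : Sieved μ E T) (c : ℕ → ℝ) (hc : ∀ i, 0 < c i) (k : ℕ) :
    ∀ᵐ ω ∂μ, ∀ α : Fin k → ℝ, (∀ i, 0 ≤ α i) → 1 < Rt c k α →
      ∃ δ : ℝ, 0 < δ ∧ ∀ᶠ n : ℕ in atTop, ¬ dist (VV {n | ω ∈ E n} c k n) α < δ := by
  have h1 : ∀ α : Fin k → ℝ, ∃ δ : ℝ, 0 < δ ∧ ((∀ i, 0 ≤ α i) → 1 < Rt c k α → ∀ᵐ ω ∂μ, ∀ᶠ n : ℕ in atTop,
      ¬ dist (VV {n | ω ∈ E n} c k n) α < δ) := by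
    intro α
    by_cases h : (∀ i, 0 ≤ α i) ∧ 1 < Rt c k α
    · obtain ⟨δ, hδ, hh⟩ := ptM_none T hT hTl hE c hc k α h.1 h.2
      exact ⟨δ, hδ, fun _ _ => hh⟩
    · exact ⟨1, one_pos, fun h1 h2 => absurd ⟨h1, h2⟩ h⟩
  choose δ hδ h1 using h1
  obtain ⟨t, ht1, ht2, ht3⟩ := TopologicalSpace.countable_cover_nhdsWithin
    (s := {α : Fin k → ℝ | (∀ i, 0 ≤ α i) ∧ 1 < Rt c k α}) (f := fun α => Metric.ball α (δ α)) (by
      intro α _
      exact mem_nhdsWithin_of_mem_nhds (Metric.ball_mem_nhds α (hδ α)))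
  have A2 := (ae_ball_iff ht2).2 (fun α hα => h1 α (ht1 hα).1 (ht1 hα).2)
  filter_upwards [A2] with ω A2 β hβ0 hβ1
  have hβ2 := ht3 ⟨hβ0, hβ1⟩
  simp only [Set.mem_iUnion] at hβ2
  obtain ⟨α, hαt, hβα⟩ := hβ2
  rw [Metric.mem_ball] at hβα
  refine ⟨δ α - dist β α, by linarith, ?_⟩
  filter_upwards [A2 α hαt] with n g1 g2
  apply g1
  calc dist (VV {n | ω ∈ E n} c k n) α ≤ dist (VV {n | ω ∈ E n} c k n) β + dist β α := dist_triangle _ _ _
    _ < δ α := by linarith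

theorem limitsM_all (Q : Set ℕ) (c : ℕ → ℝ) (k : ℕ)
    (h1 : ∀ α ∈ reg c k, ∀ ε : ℝ, 0 < ε →
      ∀ᶠ X : ℕ in atTop, (X : ℝ) ^ (1 - Rt c k α - ε) ≤
        ({n | dist (VV Q c k n) α < ε ∧ X < n ∧ n ≤ 2 * X}.ncard : ℝ))
    (h2 : ∀ α : Fin k → ℝ, (∀ i, 0 ≤ α i) → 1 < Rt c k α →
      ∃ δ : ℝ, 0 < δ ∧ ∀ᶠ n : ℕ in atTop, ¬ dist (VV Q c k n) α < δ) :
    {α : Fin k → ℝ | MapClusterPt α atTop (VV Q c k)} = {α | (∀ i, 0 ≤ α i) ∧ Rt c k α ≤ 1} := by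
  ext α
  constructor
  · intro hα
    change MapClusterPt α atTop (VV Q c k) at hα
    rw [mapClusterPt_iff_frequently] at hα
    have hα0 : ∀ i, 0 ≤ α i := by
      intro i
      by_contra hcon
      push Not at hcon
      have h3 := hα {β | β i < 0} ((continuous_apply i).continuousAt.eventually (gt_mem_nhds hcon))
      obtain ⟨n, hn⟩ := h3.exists
      have h4 : 0 ≤ VV Q c k n i := by
        unfold VV
        exact div_nonneg (Nat.cast_nonneg _) (Real.log_natCast_nonneg n)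
      exact absurd hn (not_lt.2 h4)
    refine ⟨hα0, ?_⟩
    by_contra hcon
    push Not at hcon
    obtain ⟨δ, hδ, h3⟩ := h2 α hα0 hcon
    have h4 := hα (Metric.ball α δ) (Metric.ball_mem_nhds α hδ)
    obtain ⟨n, hn1, hn2⟩ := (h4.and_eventually h3).exists
    rw [Metric.mem_ball] at hn1
    exact hn2 hn1
  · intro hα
    change MapClusterPt α atTop (VV Q c k)
    rw [mapClusterPt_iff_frequently]
    intro s hs
    obtain ⟨ε, hε, hball⟩ := Metric.mem_nhds_iff.1 hs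
    rw [frequently_atTop]
    intro a
    obtain ⟨X, g1, g2⟩ := ((h1 α hα ε hε).and (eventually_ge_atTop (a + 1))).exists
    have hX0 : (0 : ℝ) < X := by exact_mod_cast (by omega : 0 < X)
    have h3 := (Real.rpow_pos_of_pos hX0 _).trans_le g1
    have h4 : {n | dist (VV Q c k n) α < ε ∧ X < n ∧ n ≤ 2 * X}.Nonempty := by
      apply Set.nonempty_of_ncard_ne_zero
      intro h
      rw [h] at h3
      simp at h3
    obtain ⟨n, hn1, hn2, hn3⟩ := h4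
    refine ⟨n, by omega, ?_⟩
    apply hball
    rw [Metric.mem_ball]
    exact hn1

/-- the converse, from a single window -/
theorem convM (T : ℕ → ℕ) (hT : Monotone T)
    (hTs : ∀ ε : ℝ, 0 < ε → ∀ᶠ n : ℕ in atTop, (T n : ℝ) ≤ (n : ℝ) ^ ε) (E : ℕ → Set Ω)
    (hE : Sieved μ E T) (h : ∀ c : ℕ → ℝ, (∀ i, 0 < c i) → ∀ᵐ ω ∂μ, ∀ k : ℕ,
      {α : Fin k → ℝ | MapClusterPt α atTop (VV {n | ω ∈ E n} c k)} = {α | (∀ i, 0 ≤ α i) ∧ Rt c k α ≤ 1})
    (θ : ℝ) (hθ : 0 < θ) : ∀ᶠ n : ℕ in atTop, (T n : ℝ) ≤ (Real.log n) ^ θ := by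
  classical
  refine conv_cn T hT hTs E hE ?_ θ hθ
  intro c hc
  filter_upwards [h (fun _ => c) (fun _ => hc)] with ω hω
  have h1 := hω 1
  obtain ⟨Q, hQd⟩ : ∃ Q, Q = {n | ω ∈ E n} := ⟨_, rfl⟩
  rw [← hQd] at h1 ⊢
  have hV : ∀ n, VV Q (fun _ => c) 1 n = fun _ => (cn Q c n : ℝ) / Real.log n := by
    intro n
    funext i
    have hi : (i : ℕ) = 0 := by omega
    unfold VV cn Wi
    rw [hi]
    have e1 : Ys (fun _ : ℕ => c) 0 = 0 := by unfold Ys; simp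
    have e2 : Ys (fun _ : ℕ => c) (0 + 1) = c := by rw [Ys_succ, e1, zero_add]
    have e3 : wn 0 n = 0 := by unfold wn; simp
    rw [e1, e2, e3, add_zero]
  ext a
  have h2 := Set.ext_iff.1 h1 (fun _ => a)
  have h3 : MapClusterPt (fun _ : Fin 1 => a) atTop (VV Q (fun _ => c) 1) ↔
      MapClusterPt a atTop (fun n : ℕ => (cn Q c n : ℝ) / Real.log n) := by
    rw [mapClusterPt_iff_frequently, mapClusterPt_iff_frequently]
    constructor
    · intro g s hs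
      have g1 : {β : Fin 1 → ℝ | β 0 ∈ s} ∈ 𝓝 (fun _ : Fin 1 => a) :=
        (continuous_apply (0 : Fin 1)).continuousAt.preimage_mem_nhds hs
      apply (g _ g1).mono
      intro n hn
      have hn' : VV Q (fun _ => c) 1 n 0 ∈ s := hn
      rw [hV] at hn'
      exact hn'
    · intro g s hs
      have g1 : {b : ℝ | (fun _ : Fin 1 => b) ∈ s} ∈ 𝓝 a := by
        have : Continuous (fun b : ℝ => (fun _ : Fin 1 => b)) := continuous_pi (fun _ => continuous_id)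
        exact this.continuousAt.preimage_mem_nhds hs
      apply (g _ g1).mono
      intro n hn
      rw [hV]
      exact hn
  change MapClusterPt a atTop (fun n : ℕ => (cn Q c n : ℝ) / Real.log n) ↔ 0 ≤ a ∧ rate c a ≤ 1
  rw [← h3]
  have h4 : ((fun _ : Fin 1 => a) ∈ {α : Fin 1 → ℝ | (∀ i, 0 ≤ α i) ∧ Rt (fun _ => c) 1 α ≤ 1}) ↔
      (0 ≤ a ∧ rate c a ≤ 1) := by
    constructor
    · rintro ⟨g1, g2⟩
      refine ⟨g1 0, ?_⟩
      unfold Rt at g2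
      simpa using g2
    · rintro ⟨g1, g2⟩
      refine ⟨fun _ => g1, ?_⟩
      unfold Rt
      simpa using g2
  rw [← h4]
  exact h2

end Pool.Agent.U839.Er
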